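import Pool.Agent.X223.HL.Geo

/-!
# Either few of the functions `P a w` live on a finite set, or all of them do
-/

namespace Pool.Agent.X223.HL

open Finsupp

variable {V : Type*} {G : SimpleGraph V} [G.LocallyFinite] {d : ℕ}

theorem Lap_P (b : ℕ) (w : V →₀ ℝ) : Lap G d (P G d (b + 1) w) =
    P G d (b + 2) w - (2 : ℝ) • P G d (b + 1) w + P G d b w := by
  rw [P_add_two_apply]; abel

theorem span_all (w : V →₀ ℝ) (A : ℕ) (hA : 1 ≤ A)
    (h : P G d A w ∈ Submodule.span ℝ ((fun b => P G d b w) '' {b | b < A})) (a : ℕ) :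
    P G d a w ∈ Submodule.span ℝ ((fun b => P G d b w) '' {b | b < A}) := by
  set W := Submodule.span ℝ ((fun b => P G d b w) '' {b | b < A}) with hW
  have h1 : ∀ b, b ≤ A → P G d b w ∈ W := by
    intro b hb
    rcases Nat.lt_or_ge b A with h2 | h2
    · exact Submodule.subset_span ⟨b, h2, rfl⟩
    · have : b = A := le_antisymm hb h2
      rw [this]; exact h
  have h2 : ∀ m ∈ W, Lap G d m ∈ W := by
    intro m hm
    induction hm using Submodule.span_induction with
    | mem x hx =>
      obtain ⟨b, hb, rfl⟩ := hx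
      have hb' : b < A := hb
      cases b with
      | zero => simp [P_zero]
      | succ b =>
        show Lap G d (P G d (b + 1) w) ∈ W
        rw [Lap_P]
        exact W.add_mem (W.sub_mem (h1 _ (by omega)) (W.smul_mem _ (h1 _ (by omega))))
          (h1 _ (by omega))
    | zero => simp
    | add x y _ _ hx hy => rw [map_add]; exact W.add_mem hx hy
    | smul r x _ hx => rw [map_smul]; exact W.smul_mem _ hx
  induction a using Nat.twoStepInduction with
  | zero => exact h1 0 (by omega)
  | one => exact h1 1 hA
  | more n h3 h4 =>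
    rw [P_add_two_apply]
    exact W.sub_mem (W.add_mem (W.smul_mem _ h4) (h2 _ h4)) h3

theorem lemC (w : V →₀ ℝ) (K : Finset V) :
    (∃ N, ∀ a, (∀ z, z ∉ K → P G d a w z = 0) → a ≤ N) ∨
      ∃ F : Finset V, ∀ a z, z ∉ F → P G d a w z = 0 := by
  classical
  by_cases hinf : {a : ℕ | 1 ≤ a ∧ ∀ z, z ∉ K → P G d a w z = 0}.Finite
  · left
    obtain ⟨N, hN⟩ := hinf.bddAbove
    refine ⟨N + 1, fun a ha => ?_⟩
    rcases Nat.eq_zero_or_pos a with h | h
    · omega
    · have := hN ⟨h, ha⟩
      omega
  · right
    obtain ⟨t, ht1, ht2⟩ := (show {a : ℕ | 1 ≤ a ∧ ∀ z, z ∉ K → P G d a w z = 0}.Infinite from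
      hinf).exists_subset_card_eq (K.card + 1)
    have hni : ¬ LinearIndependent ℝ (fun a : t => fun z : K => P G d a.1 w z.1) := by
      intro hli
      have := hli.fintype_card_le_finrank
      rw [Module.finrank_fintype_fun_eq_card, Fintype.card_coe, Fintype.card_coe] at this
      omega
    obtain ⟨g, hg, ⟨a0, ha0⟩⟩ := Fintype.not_linearIndependent_iff.mp hni
    have hg' : ∑ a : t, g a • P G d a.1 w = 0 := by
      ext z
      rw [Finsupp.finsetSum_apply]
      simp only [Finsupp.smul_apply, Finsupp.coe_zero, Pi.zero_apply]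
      by_cases hz : z ∈ K
      · have := congrFun hg ⟨z, hz⟩
        simpa using this
      · apply Finset.sum_eq_zero
        intro a _
        rw [(ht1 a.2).2 z hz]; simp
    obtain ⟨A, hA1, hA2⟩ := Finset.exists_max_image (Finset.univ.filter (fun a : t => g a ≠ 0))
      (fun a : t => a.1) ⟨a0, by simpa using ha0⟩
    have hgA : g A ≠ 0 := by simpa using hA1
    have hA3 : 1 ≤ A.1 := (ht1 A.2).1
    have hmem : P G d A.1 w ∈ Submodule.span ℝ ((fun b => P G d b w) '' {b | b < A.1}) := by
      have h1 : P G d A.1 w = (-(g A)⁻¹) • ∑ a ∈ Finset.univ.erase A, g a • P G d a.1 w := by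
        have h2 := Finset.add_sum_erase Finset.univ (fun a : t => g a • P G d a.1 w)
          (Finset.mem_univ A)
        rw [hg'] at h2
        have h3 : ∑ a ∈ Finset.univ.erase A, g a • P G d a.1 w = -(g A • P G d A.1 w) := by
          rw [eq_neg_iff_add_eq_zero, add_comm]; exact h2
        rw [h3, smul_neg, neg_smul, neg_neg, smul_smul, inv_mul_cancel₀ hgA, one_smul]
      rw [h1]
      apply Submodule.smul_mem
      apply Submodule.sum_mem
      intro a ha
      by_cases h4 : g a = 0
      · rw [h4, zero_smul]; exact Submodule.zero_mem _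
      · apply Submodule.smul_mem
        apply Submodule.subset_span
        refine ⟨a.1, ?_, rfl⟩
        have h5 := hA2 a (by simpa using h4)
        have h6 : a.1 ≠ A.1 := fun h => (Finset.ne_of_mem_erase ha) (Subtype.ext h)
        exact lt_of_le_of_ne h5 h6
    refine ⟨(Finset.range A.1).biUnion fun b => (P G d b w).support, fun a z hz => ?_⟩
    have h7 := span_all w A.1 hA3 hmem a
    have h8 : ∀ m ∈ Submodule.span ℝ ((fun b => P G d b w) '' {b | b < A.1}), m z = 0 := by
      intro m hm
      induction hm using Submodule.span_induction with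
      | mem x hx =>
        obtain ⟨b, hb, rfl⟩ := hx
        by_contra hcon
        apply hz
        rw [Finset.mem_biUnion]
        exact ⟨b, by simpa using hb, Finsupp.mem_support_iff.mpr hcon⟩
      | zero => simp
      | add x y _ _ hx hy => rw [Finsupp.add_apply, hx, hy, add_zero]
      | smul r x _ hx => rw [Finsupp.smul_apply, hx, smul_zero]
    exact h8 _ h7

end Pool.Agent.X223.HL
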