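import Pool.Agent.X223.HL.State

/-!
# The greedy construction
-/

namespace Pool.Agent.X223.HL

open Finsupp

variable {V : Type*}

/-- A finite partial assignment of the layers 1 and 0. -/
structure St (V : Type*) where
  /-- assigned vertices of layer 1 -/
  S1 : Finset V
  /-- assigned vertices of layer 0 -/
  S0 : Finset V
  /-- values on layer 1 -/
  f1 : V → ℤ
  /-- values on layer 0 -/
  f0 : V → ℤ

/-- Extension of partial assignments. -/
def St.Le (a b : St V) : Prop := a.S1 ⊆ b.S1 ∧ a.S0 ⊆ b.S0 ∧ (∀ x ∈ a.S1, b.f1 x = a.f1 x) ∧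
  (∀ x ∈ a.S0, b.f0 x = a.f0 x)

theorem St.Le.refl (a : St V) : a.Le a := ⟨fun _ h => h, fun _ h => h, fun _ _ => rfl, fun _ _ => rfl⟩

theorem St.Le.trans {a b c : St V} (h1 : a.Le b) (h2 : b.Le c) : a.Le c :=
  ⟨fun _ h => h2.1 (h1.1 h), fun _ h => h2.2.1 (h1.2.1 h),
    fun x hx => (h2.2.2.1 x (h1.1 hx)).trans (h1.2.2.1 x hx),
    fun x hx => (h2.2.2.2 x (h1.2.1 hx)).trans (h1.2.2.2 x hx)⟩

variable (G : SimpleGraph V) [G.LocallyFinite] (d : ℕ)

/-- The value `N` is attained at a point determined by the partial assignment. -/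
def Hit (a : St V) (N : ℤ) : Prop := ∃ p : Pt V, Off a.S1 (F1 G d p) ∧ Off a.S0 (F0 G d p) ∧
  val a.f1 a.f0 (F1 G d p) (F0 G d p) = N

/-- Good partial assignments. -/
def GoodS (a : St V) : Prop := Good G d a.S1 a.S0 a.f1 a.f0

variable {G d}

section

variable (hc : G.Connected) (hd : ∀ x, G.degree x = d) (ht : Trans G) [Infinite V]
include hc hd ht

theorem ext1 (a : St V) (ha : GoodS G d a) (x : V) :
    ∃ b, GoodS G d b ∧ a.Le b ∧ x ∈ b.S1 := by
  classical
  by_cases hx : x ∈ a.S1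
  · exact ⟨a, ha, St.Le.refl a, hx⟩
  · obtain ⟨t, h⟩ := step1 hc hd ht a.S1 a.S0 a.f1 a.f0 ha x hx
    refine ⟨⟨insert x a.S1, a.S0, Function.update a.f1 x t, a.f0⟩, h, ⟨?_, fun _ h => h, ?_,
      fun _ _ => rfl⟩, Finset.mem_insert_self _ _⟩
    · exact Finset.subset_insert _ _
    · intro y hy
      have hne : y ≠ x := fun h => hx (h ▸ hy)
      exact Function.update_of_ne hne _ _

theorem extz (a : St V) (ha : GoodS G d a) (x : V) :
    ∃ b, GoodS G d b ∧ a.Le b ∧ x ∈ b.S0 := by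
  classical
  by_cases hx : x ∈ a.S0
  · exact ⟨a, ha, St.Le.refl a, hx⟩
  · obtain ⟨t, h⟩ := step0 hc hd ht a.S1 a.S0 a.f1 a.f0 ha x hx
    refine ⟨⟨a.S1, insert x a.S0, a.f1, Function.update a.f0 x t⟩, h, ⟨fun _ h => h, ?_,
      fun _ _ => rfl, ?_⟩, Finset.mem_insert_self _ _⟩
    · exact Finset.subset_insert _ _
    · intro y hy
      have hne : y ≠ x := fun h => hx (h ▸ hy)
      exact Function.update_of_ne hne _ _

theorem extN (a : St V) (ha : GoodS G d a) (N : ℤ) :
    ∃ b, GoodS G d b ∧ a.Le b ∧ Hit G d b N := by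
  classical
  by_cases hN : Hit G d a N
  · exact ⟨a, ha, St.Le.refl a, hN⟩
  · obtain ⟨v, hv, h⟩ := stepN hc hd ht a.S1 a.S0 a.f1 a.f0 ha N (fun p h1 h0 hval =>
      hN ⟨p, h1, h0, hval⟩)
    refine ⟨⟨a.S1, insert v a.S0, a.f1, Function.update a.f0 v N⟩, h, ⟨fun _ h => h, ?_,
      fun _ _ => rfl, ?_⟩, ⟨(v, 0, false), ?_, ?_, ?_⟩⟩
    · exact Finset.subset_insert _ _
    · intro y hy
      have hne : y ≠ v := fun h => hv (h ▸ hy)
      exact Function.update_of_ne hne _ _
    · intro z _; simp [F1, P_zero]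
    · intro z hz
      have : v ≠ z := by rintro rfl; exact hz (Finset.mem_insert_self _ _)
      simp [F0, P_one, Finsupp.single_apply, this]
    · simp [val, F0, F1, P_zero, P_one, pr_single]

theorem extend (a : St V) (ha : GoodS G d a) (x : V) (N : ℤ) :
    ∃ b, GoodS G d b ∧ a.Le b ∧ x ∈ b.S1 ∧ x ∈ b.S0 ∧ Hit G d b N := by
  obtain ⟨b, hb, hab, hx1⟩ := ext1 hc hd ht a ha x
  obtain ⟨b', hb', hbb, hx0⟩ := extz hc hd ht b hb x
  obtain ⟨c, hc', hbc, hN⟩ := extN hc hd ht b' hb' N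
  exact ⟨c, hc', (hab.trans hbb).trans hbc, hbc.1 (hbb.1 hx1), hbc.2.1 hx0, hN⟩

omit hd ht [Infinite V] in
theorem countable_V : Countable V := by
  obtain ⟨o⟩ := hc.nonempty
  rw [← Set.countable_univ_iff]
  have h1 : (Set.univ : Set V) = ⋃ r : ℕ, {z | G.dist o z ≤ r} := by
    symm
    rw [Set.eq_univ_iff_forall]
    intro z
    rw [Set.mem_iUnion]
    exact ⟨G.dist o z, le_refl (G.dist o z)⟩
  rw [h1]
  exact Set.countable_iUnion fun r => (ball_finite hc o r).countable

theorem main_exists : ∃ f1 f0 : V → ℤ,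
    (∀ p q : Pt V, p ≠ q → val f1 f0 (F1 G d p) (F0 G d p) ≠ val f1 f0 (F1 G d q) (F0 G d q)) ∧
    (∀ N : ℤ, ∃ p : Pt V, val f1 f0 (F1 G d p) (F0 G d p) = N) := by
  classical
  have : Countable V := countable_V hc
  have : Nonempty V := hc.nonempty
  obtain ⟨e, he⟩ := exists_surjective_nat (V × ℤ)
  choose nx hnx using fun (a : {a : St V // GoodS G d a}) (u : V × ℤ) =>
    extend hc hd ht a.1 a.2 u.1 u.2
  set a0 : {a : St V // GoodS G d a} := ⟨⟨∅, ∅, fun _ => 0, fun _ => 0⟩,
    good_empty hc hd ht _ _⟩ with ha0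
  set st : ℕ → {a : St V // GoodS G d a} := fun n => Nat.rec a0 (fun n a =>
    ⟨nx a (e n), (hnx a (e n)).1⟩) n with hst
  have hsucc : ∀ n, (st (n + 1)).1 = nx (st n) (e n) := fun n => rfl
  have hle1 : ∀ n, (st n).1.Le (st (n + 1)).1 := fun n => by
    rw [hsucc]; exact (hnx (st n) (e n)).2.1
  have hle : ∀ m n, m ≤ n → (st m).1.Le (st n).1 := by
    intro m n hmn
    induction n, hmn using Nat.le_induction with
    | base => exact St.Le.refl _
    | succ n _ ih => exact ih.trans (hle1 n)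
  have hmem : ∀ x, ∃ n, x ∈ (st n).1.S1 ∧ x ∈ (st n).1.S0 := by
    intro x
    obtain ⟨n, hn⟩ := he (x, 0)
    refine ⟨n + 1, ?_, ?_⟩
    · rw [hsucc]
      have := (hnx (st n) (e n)).2.2.1
      rw [hn] at this ⊢; exact this
    · rw [hsucc]
      have := (hnx (st n) (e n)).2.2.2.1
      rw [hn] at this ⊢; exact this
  choose k hk1 hk0 using hmem
  set f1 : V → ℤ := fun x => (st (k x)).1.f1 x with hf1
  set f0 : V → ℤ := fun x => (st (k x)).1.f0 x with hf0
  have hag1 : ∀ n x, x ∈ (st n).1.S1 → f1 x = (st n).1.f1 x := by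
    intro n x hx
    have h1 := (hle n (max n (k x)) (le_max_left _ _)).2.2.1 x hx
    have h2 := (hle (k x) (max n (k x)) (le_max_right _ _)).2.2.1 x (hk1 x)
    rw [hf1]
    exact h2.symm.trans h1
  have hag0 : ∀ n x, x ∈ (st n).1.S0 → f0 x = (st n).1.f0 x := by
    intro n x hx
    have h1 := (hle n (max n (k x)) (le_max_left _ _)).2.2.2 x hx
    have h2 := (hle (k x) (max n (k x)) (le_max_right _ _)).2.2.2 x (hk0 x)
    rw [hf0]
    exact h2.symm.trans h1
  have hval : ∀ n (m1 m0 : V →₀ ℝ), Off (st n).1.S1 m1 → Off (st n).1.S0 m0 →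
      val f1 f0 m1 m0 = val (st n).1.f1 (st n).1.f0 m1 m0 := by
    intro n m1 m0 h1 h0
    rw [val, val]
    congr 1
    · apply pr_congr
      intro x hx
      rw [hag1 n x]
      by_contra hcon
      exact (Finsupp.mem_support_iff.mp hx) (h1 x hcon)
    · apply pr_congr
      intro x hx
      rw [hag0 n x]
      by_contra hcon
      exact (Finsupp.mem_support_iff.mp hx) (h0 x hcon)
  refine ⟨f1, f0, ?_, ?_⟩
  · intro p q hpq heq
    set D1 := F1 G d p - F1 G d q with hD1
    set D0 := F0 G d p - F0 G d q with hD0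
    set n := (D1.support ∪ D0.support).sup k with hn
    have hkn : ∀ x ∈ D1.support ∪ D0.support, k x ≤ n := fun x hx => Finset.le_sup (f := k) hx
    have h1 : Off (st n).1.S1 D1 := by
      intro z hz
      by_contra hcon
      have hz' : z ∈ D1.support := Finsupp.mem_support_iff.mpr hcon
      exact hz ((hle (k z) n (hkn z (Finset.mem_union_left _ hz'))).1 (hk1 z))
    have h0 : Off (st n).1.S0 D0 := by
      intro z hz
      by_contra hcon
      have hz' : z ∈ D0.support := Finsupp.mem_support_iff.mpr hcon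
      exact hz ((hle (k z) n (hkn z (Finset.mem_union_right _ hz'))).2.1 (hk0 z))
    apply (st n).2 p q hpq h1 h0
    rw [← hD1, ← hD0, ← hval n D1 D0 h1 h0, val, hD1, hD0, map_sub, map_sub]
    rw [val, val] at heq
    linarith
  · intro N
    obtain ⟨n, hn⟩ := he (Classical.arbitrary V, N)
    have h := (hnx (st n) (e n)).2.2.2.2
    rw [← hsucc, hn] at h
    obtain ⟨p, h1, h0, hp⟩ := h
    exact ⟨p, by rw [hval (n + 1) _ _ h1 h0]; exact hp⟩

end

/-! ## The values along the levels -/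

/-- The dual Laplacian on integer functions. -/
noncomputable def dZ (G : SimpleGraph V) [G.LocallyFinite] (d : ℕ) (g : V → ℤ) : V → ℤ :=
  fun x => (d : ℤ) * g x - ∑ y ∈ G.neighborFinset x, g y

/-- The harmonic extension of two consecutive layers. -/
noncomputable def U (G : SimpleGraph V) [G.LocallyFinite] (d : ℕ) (g h : V → ℤ) : ℕ → V → ℤ
  | 0 => g
  | 1 => h
  | (n + 2) => fun x => 2 * U G d g h (n + 1) x + dZ G d (U G d g h (n + 1)) x - U G d g h n x

theorem U_add_two (g h : V → ℤ) (n : ℕ) (x : V) : U G d g h (n + 2) x =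
    2 * U G d g h (n + 1) x + dZ G d (U G d g h (n + 1)) x - U G d g h n x := rfl

theorem pr_U (g h : V → ℤ) (n : ℕ) (m : V →₀ ℝ) :
    pr (fun x => (U G d g h (n + 1) x : ℝ)) m =
      pr (fun x => (h x : ℝ)) (P G d (n + 1) m) - pr (fun x => (g x : ℝ)) (P G d n m) := by
  have key : ∀ n (m : V →₀ ℝ), pr (fun x => (U G d g h (n + 2) x : ℝ)) m =
      2 * pr (fun x => (U G d g h (n + 1) x : ℝ)) m +
      pr (fun x => (U G d g h (n + 1) x : ℝ)) (Lap G d m) - pr (fun x => (U G d g h n x : ℝ)) m := by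
    intro n m
    rw [pr_Lap]
    simp only [pr_apply]
    rw [Finset.mul_sum, ← Finset.sum_add_distrib, ← Finset.sum_sub_distrib]
    apply Finset.sum_congr rfl
    intro x _
    rw [U_add_two, dL]
    unfold dZ
    push_cast
    ring
  induction n using Nat.twoStepInduction generalizing m with
  | zero => rw [P_zero, P_one]; simp [U]
  | one =>
    rw [key, P_add_two_apply, P_zero, P_one]
    simp [U]
  | more n h0 h1 =>
    rw [key, h1, h0, h1, P_comm_Lap, P_comm_Lap, P_add_two_apply G d (n + 1),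
      P_add_two_apply G d n]
    simp only [map_sub, map_add, map_smul, smul_eq_mul]
    ring

theorem U_val (g h : V → ℤ) (n : ℕ) (x : V) :
    (U G d g h (n + 1) x : ℝ) = pr (fun x => (h x : ℝ)) (P G d (n + 1) (single x 1)) -
      pr (fun x => (g x : ℝ)) (P G d n (single x 1)) := by
  rw [← pr_U, pr_single, one_mul]

end Pool.Agent.X223.HL
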