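import Pool.Agent.X223.HL.Lap

/-!
# Distances in transitive graphs, spheres, and the support of the kernel
-/

namespace Pool.Agent.X223.HL

open Finsupp

variable {V : Type*} {G : SimpleGraph V}

theorem geo_split (hc : G.Connected) (x z : V) (r : ℕ) (hr : r ≤ G.dist x z) :
    ∃ y, G.dist x y = r ∧ G.dist y z = G.dist x z - r := by
  obtain ⟨p, hp⟩ := (hc.preconnected x z).exists_walk_length_eq_dist
  refine ⟨p.getVert r, ?_, ?_⟩
  · have h1 : G.dist x (p.getVert r) ≤ r := by
      refine (SimpleGraph.dist_le (p.take r)).trans ?_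
      rw [SimpleGraph.Walk.take_length]; exact min_le_left _ _
    have h2 : G.dist (p.getVert r) z ≤ p.length - r := by
      refine (SimpleGraph.dist_le (p.drop r)).trans ?_
      rw [SimpleGraph.Walk.drop_length]
    have h3 := hc.dist_triangle (u := x) (v := p.getVert r) (w := z)
    omega
  · have h1 : G.dist x (p.getVert r) ≤ r := by
      refine (SimpleGraph.dist_le (p.take r)).trans ?_
      rw [SimpleGraph.Walk.take_length]; exact min_le_left _ _
    have h2 : G.dist (p.getVert r) z ≤ p.length - r := by
      refine (SimpleGraph.dist_le (p.drop r)).trans ?_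
      rw [SimpleGraph.Walk.drop_length]
    have h3 := hc.dist_triangle (u := x) (v := p.getVert r) (w := z)
    omega

theorem adj_step (hc : G.Connected) (x z : V) (n : ℕ) (h : G.dist x z = n + 1) :
    ∃ y, G.Adj z y ∧ G.dist x y = n := by
  obtain ⟨y, h1, h2⟩ := geo_split hc x z n (by omega)
  refine ⟨y, ?_, h1⟩
  rw [h] at h2
  have h3 : G.dist y z = 1 := by omega
  exact (SimpleGraph.dist_eq_one_iff_adj.mp h3).symm

theorem dist_adj_le (hc : G.Connected) (x : V) {y z : V} (h : G.Adj y z) :
    G.dist x z ≤ G.dist x y + 1 := by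
  have h1 := hc.dist_triangle (u := x) (v := y) (w := z)
  rw [SimpleGraph.dist_eq_one_iff_adj.mpr h] at h1
  exact h1

section fin

variable [G.LocallyFinite]

theorem ball_finite (hc : G.Connected) (x : V) (r : ℕ) : {z | G.dist x z ≤ r}.Finite := by
  classical
  induction r with
  | zero =>
    apply (Set.finite_singleton x).subset
    intro z hz
    have h : G.dist x z = 0 := by simpa using hz
    rw [hc.dist_eq_zero_iff] at h
    simp [h]
  | succ r ih =>
    have h1 : {z | G.dist x z ≤ r + 1} ⊆ {z | G.dist x z ≤ r} ∪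
        ⋃ y ∈ {z | G.dist x z ≤ r}, (G.neighborFinset y : Set V) := by
      intro z hz
      rw [Set.mem_ofPred_eq] at hz
      rcases Nat.lt_or_ge (G.dist x z) (r + 1) with h | h
      · left; simpa using Nat.lt_succ_iff.mp h
      · right
        obtain ⟨y, h2, h3⟩ := adj_step hc x z r (by omega)
        simp only [Set.mem_iUnion]
        exact ⟨y, by simp [h3], by simpa using h2.symm⟩
    exact (ih.union (ih.biUnion fun y _ => Finset.finite_toSet _)).subset h1

theorem exists_dist [Infinite V] (hc : G.Connected) (x : V) (r : ℕ) : ∃ z, G.dist x z = r := by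
  obtain ⟨z, hz⟩ := (ball_finite hc x r).infinite_compl.nonempty
  have h1 : r ≤ G.dist x z := by
    have : ¬ (G.dist x z ≤ r) := hz
    omega
  obtain ⟨y, h2, _⟩ := geo_split hc x z r h1
  exact ⟨y, h2⟩

omit [G.LocallyFinite] in
theorem iso_dist_le (hc : G.Connected) (e : G ≃g G) (x y : V) : G.dist (e x) (e y) ≤ G.dist x y := by
  obtain ⟨p, hp⟩ := (hc.preconnected x y).exists_walk_length_eq_dist
  have h := SimpleGraph.dist_le (p.map e.toHom)
  rw [SimpleGraph.Walk.length_map, hp] at h
  exact h

omit [G.LocallyFinite] in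
theorem iso_dist (hc : G.Connected) (e : G ≃g G) (x y : V) : G.dist (e x) (e y) = G.dist x y := by
  apply le_antisymm (iso_dist_le hc e x y)
  have h := iso_dist_le hc e.symm (e x) (e y)
  simpa using h

theorem antipodal [Infinite V] (hc : G.Connected) (ht : Trans G) (x : V) (r : ℕ) :
    ∃ z z', G.dist x z = r ∧ G.dist x z' = r ∧ G.dist z z' = 2 * r := by
  obtain ⟨w, hw⟩ := exists_dist hc x (2 * r)
  obtain ⟨y, h1, h2⟩ := geo_split hc x w r (by omega)
  obtain ⟨e, he⟩ := ht y x
  refine ⟨e x, e w, ?_, ?_, ?_⟩
  · have h3 := iso_dist hc e y x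
    rw [he] at h3
    rw [h3, SimpleGraph.dist_comm]; exact h1
  · have h3 := iso_dist hc e y w
    rw [he] at h3
    omega
  · rw [iso_dist hc]; exact hw

variable {d : ℕ}

theorem P_far (hc : G.Connected) (n : ℕ) (x z : V) (h : n ≤ G.dist x z) :
    P G d n (single x 1) z = 0 := by
  classical
  induction n using Nat.twoStepInduction generalizing z with
  | zero => simp [P_zero]
  | one =>
    have : x ≠ z := by rintro rfl; simp at h
    simp [P_one, Finsupp.single_apply, this]
  | more n h0 h1 =>
    rw [P_add_two_apply]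
    simp only [Finsupp.sub_apply, Finsupp.add_apply, Finsupp.smul_apply, smul_eq_mul]
    rw [Lap_apply, h1 z (by omega), h0 z (by omega), Finset.sum_eq_zero]
    · ring
    · intro y hy
      rw [SimpleGraph.mem_neighborFinset] at hy
      apply h1
      have := dist_adj_le hc x hy.symm
      omega

theorem P_sphere_sign (hc : G.Connected) (n : ℕ) (x z : V) (h : G.dist x z = n) :
    0 < (-1 : ℝ) ^ n * P G d (n + 1) (single x 1) z := by
  classical
  induction n generalizing z with
  | zero =>
    rw [hc.dist_eq_zero_iff] at h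
    subst h
    simp [P_one]
  | succ n ih =>
    rw [P_add_two_apply]
    simp only [Finsupp.sub_apply, Finsupp.add_apply, Finsupp.smul_apply, smul_eq_mul]
    rw [Lap_apply, P_far hc (n + 1) x z (by omega), P_far hc n x z (by omega)]
    have h1 : (-1 : ℝ) ^ (n + 1) * (2 * 0 + ((d : ℝ) * 0 -
        ∑ y ∈ G.neighborFinset z, P G d (n + 1) (single x 1) y) - 0) =
        ∑ y ∈ G.neighborFinset z, (-1 : ℝ) ^ n * P G d (n + 1) (single x 1) y := by
      rw [← Finset.mul_sum, pow_succ]; ring
    rw [h1]
    obtain ⟨y, h2, h3⟩ := adj_step hc x z n h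
    apply Finset.sum_pos'
    · intro w hw
      rw [SimpleGraph.mem_neighborFinset] at hw
      rcases Nat.lt_or_ge n (G.dist x w) with h4 | h4
      · rw [P_far hc (n + 1) x w (by omega)]; simp
      · have h5 := dist_adj_le hc x hw.symm
        exact (ih w (by omega)).le
    · exact ⟨y, by simpa using h2, ih y h3⟩

theorem P_sphere (hc : G.Connected) (n : ℕ) (x z : V) (h : G.dist x z = n) :
    P G d (n + 1) (single x 1) z ≠ 0 := by
  intro h0
  have := P_sphere_sign (d := d) hc n x z h
  rw [h0] at this
  simp at this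

end fin

end Pool.Agent.X223.HL
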