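import Mathlib

/-!
# Harmonic functions on `G x Z`: the kernel of the transfer operators

`Lap` is the Laplacian `d - A` on finitely supported functions on the vertices of a locally
finite graph, `P n` the polynomials `P 0 = 0`, `P 1 = 1`, `P (n+2) = (2 + Lap) P (n+1) - P n`.
-/

namespace Pool.Agent.X223.HL

open Finsupp

variable {V : Type*} (G : SimpleGraph V) [G.LocallyFinite] (d : ℕ)

/-- Pairing of a finitely supported function with a function. -/
noncomputable def pr (f : V → ℝ) : (V →₀ ℝ) →ₗ[ℝ] ℝ := Finsupp.linearCombination ℝ f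

omit [G.LocallyFinite] in
theorem pr_single (f : V → ℝ) (x : V) (a : ℝ) : pr f (single x a) = a * f x := by
  simp [pr, Finsupp.linearCombination_single]

/-- The dual operator on all functions. -/
noncomputable def dL (f : V → ℝ) : V → ℝ := fun x => (d : ℝ) * f x - ∑ y ∈ G.neighborFinset x, f y

/-- The Laplacian on finitely supported functions. -/
noncomputable def Lap : (V →₀ ℝ) →ₗ[ℝ] (V →₀ ℝ) :=
  Finsupp.linearCombination ℝ (fun x => (d : ℝ) • single x (1 : ℝ) -
    ∑ y ∈ G.neighborFinset x, single y (1 : ℝ))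

theorem Lap_single (x : V) (a : ℝ) : Lap G d (single x a) =
    a • ((d : ℝ) • single x (1 : ℝ) - ∑ y ∈ G.neighborFinset x, single y (1 : ℝ)) := by
  simp [Lap, Finsupp.linearCombination_single]

theorem Lap_apply (m : V →₀ ℝ) (z : V) :
    Lap G d m z = (d : ℝ) * m z - ∑ y ∈ G.neighborFinset z, m y := by
  classical
  induction m using Finsupp.induction_linear with
  | zero => simp
  | add f g hf hg => simp only [map_add, Finsupp.add_apply, hf, hg, Finset.sum_add_distrib]; ring
  | single x a =>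
    rw [Lap_single]
    simp only [Finsupp.smul_apply, Finsupp.sub_apply, Finsupp.finsetSum_apply, smul_eq_mul,
      Finsupp.single_apply]
    rw [Finset.sum_ite_eq' (G.neighborFinset x) z (fun _ => (1 : ℝ)),
      Finset.sum_ite_eq (G.neighborFinset z) x (fun _ => a)]
    by_cases h1 : x = z
    · subst h1; simp; ring
    · by_cases h2 : G.Adj x z
      · simp [h1, h2, h2.symm]
      · have h3 : ¬ G.Adj z x := fun h => h2 h.symm
        simp [h1, h2, h3]

theorem pr_Lap (f : V → ℝ) (m : V →₀ ℝ) : pr f (Lap G d m) = pr (dL G d f) m := by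
  induction m using Finsupp.induction_linear with
  | zero => simp
  | add u v hu hv => simp only [map_add, hu, hv]
  | single x a =>
    rw [Lap_single, pr_single, map_smul, map_sub, map_smul, map_sum]
    simp only [pr_single, dL, smul_eq_mul, one_mul]

omit [G.LocallyFinite] in
theorem pr_apply (f : V → ℝ) (m : V →₀ ℝ) : pr f m = ∑ x ∈ m.support, m x * f x := by
  simp [pr, Finsupp.linearCombination_apply, Finsupp.sum]

omit [G.LocallyFinite] in
theorem pr_apply_of_subset (f : V → ℝ) (m : V →₀ ℝ) (s : Finset V) (h : m.support ⊆ s) :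
    pr f m = ∑ x ∈ s, m x * f x := by
  rw [pr_apply]
  apply Finset.sum_subset h
  intro x _ hx
  simp [Finsupp.notMem_support_iff.mp hx]

omit [G.LocallyFinite] in
theorem pr_congr (f g : V → ℝ) (m : V →₀ ℝ) (h : ∀ x ∈ m.support, f x = g x) : pr f m = pr g m := by
  rw [pr_apply, pr_apply]
  exact Finset.sum_congr rfl fun x hx => by rw [h x hx]

omit [G.LocallyFinite] in
theorem pr_comm (u w : V →₀ ℝ) : pr (⇑w) u = pr (⇑u) w := by
  classical
  rw [pr_apply_of_subset _ _ _ (Finset.subset_union_left (s₂ := w.support)),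
    pr_apply_of_subset _ _ _ (Finset.subset_union_right (s₁ := u.support))]
  exact Finset.sum_congr rfl fun x _ => by ring

theorem pr_Lap_symm (u w : V →₀ ℝ) : pr (⇑w) (Lap G d u) = pr (⇑(Lap G d w)) u := by
  rw [pr_Lap]
  congr 2
  funext x
  rw [Lap_apply, dL]

theorem pr_self_nonneg (w : V →₀ ℝ) : 0 ≤ pr (⇑w) w := by
  rw [pr_apply]; exact Finset.sum_nonneg fun x _ => mul_self_nonneg _

theorem pr_Lap_nonneg (hd : ∀ x, G.degree x = d) (w : V →₀ ℝ) : 0 ≤ pr (⇑w) (Lap G d w) := by
  classical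
  rw [pr_comm, pr_apply]
  have h1 : ∀ x ∈ w.support, w x * Lap G d w x ≥ (d : ℝ) / 2 * w x ^ 2
      - 1 / 2 * ∑ y ∈ G.neighborFinset x, w y ^ 2 := by
    intro x _
    rw [Lap_apply]
    have h2 : w x * ∑ y ∈ G.neighborFinset x, w y ≤
        ∑ y ∈ G.neighborFinset x, (w x ^ 2 / 2 + w y ^ 2 / 2) := by
      rw [Finset.mul_sum]
      exact Finset.sum_le_sum fun y _ => by nlinarith [sq_nonneg (w x - w y)]
    rw [Finset.sum_add_distrib, Finset.sum_const, SimpleGraph.card_neighborFinset_eq_degree,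
      hd x, nsmul_eq_mul, ← Finset.sum_div] at h2
    nlinarith
  have h3 : ∑ x ∈ w.support, ∑ y ∈ G.neighborFinset x, w y ^ 2 ≤
      (d : ℝ) * ∑ y ∈ w.support, w y ^ 2 := by
    have h4 : ∀ x ∈ w.support, ∑ y ∈ G.neighborFinset x, w y ^ 2 =
        ∑ y ∈ w.support, if G.Adj x y then w y ^ 2 else 0 := by
      intro x _
      rw [← Finset.sum_filter]
      symm
      apply Finset.sum_subset_zero_on_sdiff
      · intro y hy; simpa using (Finset.mem_filter.mp hy).2
      · intro y hy
        rw [Finset.mem_sdiff, Finset.mem_filter, SimpleGraph.mem_neighborFinset] at hy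
        have : y ∉ w.support := fun h => hy.2 ⟨h, hy.1⟩
        simp [Finsupp.notMem_support_iff.mp this]
      · intro y _; rfl
    rw [Finset.sum_congr rfl h4, Finset.sum_comm, Finset.mul_sum]
    apply Finset.sum_le_sum
    intro y _
    rw [← Finset.sum_filter, Finset.sum_const, nsmul_eq_mul]
    apply mul_le_mul_of_nonneg_right _ (sq_nonneg _)
    rw [← hd y, ← SimpleGraph.card_neighborFinset_eq_degree]
    exact_mod_cast Finset.card_le_card (fun x hx => by
      simpa using ((Finset.mem_filter.mp hx).2).symm)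
  have h5 := Finset.sum_le_sum h1
  rw [Finset.sum_sub_distrib, ← Finset.mul_sum, ← Finset.mul_sum] at h5
  have h6 : ∑ x ∈ w.support, Lap G d w x * w x = ∑ x ∈ w.support, w x * Lap G d w x :=
    Finset.sum_congr rfl fun x _ => by ring
  have h7 : ∑ x ∈ w.support, w x * Lap G d w x = ∑ x ∈ w.support, w x * Lap G d w x := rfl
  linarith

/-- The transfer polynomials. -/
noncomputable def P : ℕ → ((V →₀ ℝ) →ₗ[ℝ] (V →₀ ℝ))
  | 0 => 0
  | 1 => LinearMap.id
  | (n + 2) => (2 : ℝ) • P (n + 1) + Lap G d ∘ₗ P (n + 1) - P n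

theorem P_zero : P G d 0 = 0 := rfl
theorem P_one : P G d 1 = LinearMap.id := rfl
theorem P_add_two (n : ℕ) : P G d (n + 2) =
    (2 : ℝ) • P G d (n + 1) + Lap G d ∘ₗ P G d (n + 1) - P G d n := rfl

theorem P_add_two_apply (n : ℕ) (m : V →₀ ℝ) : P G d (n + 2) m =
    (2 : ℝ) • P G d (n + 1) m + Lap G d (P G d (n + 1) m) - P G d n m := rfl

theorem P_comm_Lap (n : ℕ) (m : V →₀ ℝ) : P G d n (Lap G d m) = Lap G d (P G d n m) := by
  induction n using Nat.twoStepInduction with
  | zero => simp [P_zero]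
  | one => simp [P_one]
  | more n h0 h1 => rw [P_add_two_apply, P_add_two_apply, h0, h1]; simp

/-- Sums of powers of the Laplacian. -/
inductive NN : ((V →₀ ℝ) →ₗ[ℝ] (V →₀ ℝ)) → Prop
  | zero : NN 0
  | step (k : ℕ) (Q : (V →₀ ℝ) →ₗ[ℝ] (V →₀ ℝ)) : NN Q → NN (Q + (Lap G d) ^ k)

variable {G d}

theorem NN.add {Q R : (V →₀ ℝ) →ₗ[ℝ] (V →₀ ℝ)} (hQ : NN G d Q) (hR : NN G d R) :
    NN G d (Q + R) := by
  induction hR with
  | zero => simpa using hQ
  | step k R _ ih => rw [← add_assoc]; exact NN.step k _ ih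

theorem NN.lap {Q : (V →₀ ℝ) →ₗ[ℝ] (V →₀ ℝ)} (hQ : NN G d Q) : NN G d (Lap G d ∘ₗ Q) := by
  induction hQ with
  | zero => simpa using NN.zero
  | step k Q _ ih =>
    have : Lap G d ∘ₗ (Q + (Lap G d) ^ k) = Lap G d ∘ₗ Q + (Lap G d) ^ (k + 1) := by
      rw [LinearMap.comp_add, pow_succ']; rfl
    rw [this]; exact NN.step _ _ ih

theorem NN.one : NN G d LinearMap.id := by
  have := NN.step (G := G) (d := d) 0 0 NN.zero
  rw [pow_zero, zero_add] at this
  exact this

theorem pow_nonneg_pr (hd : ∀ x, G.degree x = d) (k : ℕ) (w : V →₀ ℝ) :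
    0 ≤ pr (⇑w) (((Lap G d) ^ k) w) := by
  have key : ∀ (j : ℕ) (u w : V →₀ ℝ), pr (⇑w) (((Lap G d) ^ j) u) =
      pr (⇑(((Lap G d) ^ j) w)) u := by
    intro j
    induction j with
    | zero => intro u w; simp
    | succ j ih =>
      intro u w
      rw [pow_succ', Module.End.mul_apply, pr_Lap_symm, ih, ← Module.End.mul_apply, ← pow_succ]
      rw [pow_succ', Module.End.mul_apply]
  rcases Nat.even_or_odd' k with ⟨j, rfl | rfl⟩
  · rw [two_mul, pow_add, Module.End.mul_apply, key]
    exact pr_self_nonneg _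
  · have : (Lap G d) ^ (2 * j + 1) = (Lap G d) ^ j * (Lap G d * (Lap G d) ^ j) := by
      rw [← pow_succ', ← pow_add]; congr 1; ring
    rw [this, Module.End.mul_apply, key, Module.End.mul_apply]
    exact pr_Lap_nonneg G d hd _

theorem NN.nonneg (hd : ∀ x, G.degree x = d) {Q : (V →₀ ℝ) →ₗ[ℝ] (V →₀ ℝ)} (hQ : NN G d Q)
    (w : V →₀ ℝ) : 0 ≤ pr (⇑w) (Q w) := by
  induction hQ with
  | zero => simp
  | step k Q _ ih =>
    rw [LinearMap.add_apply, map_add]
    exact add_nonneg ih (pow_nonneg_pr hd k w)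

theorem P_delta (n : ℕ) : NN G d (P G d n) ∧ ∃ Q, NN G d Q ∧
    P G d (n + 1) = P G d n + LinearMap.id + Q := by
  induction n with
  | zero => exact ⟨NN.zero, 0, NN.zero, by simp [P_zero, P_one]⟩
  | succ n ih =>
    obtain ⟨h1, Q, hQ, h2⟩ := ih
    have h3 : NN G d (P G d (n + 1)) := by rw [h2]; exact (h1.add NN.one).add hQ
    refine ⟨h3, Q + Lap G d ∘ₗ P G d (n + 1), hQ.add h3.lap, ?_⟩
    rw [P_add_two]
    have h4 : P G d n = P G d (n + 1) - LinearMap.id - Q := by rw [h2]; abel
    rw [h4, two_smul]; abel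

theorem P_lt {a b : ℕ} (h : b < a) : ∃ Q, NN G d Q ∧ P G d a = P G d b + LinearMap.id + Q := by
  obtain ⟨k, rfl⟩ := Nat.exists_eq_add_of_lt h
  clear h
  induction k with
  | zero => exact (P_delta b).2
  | succ k ih =>
    obtain ⟨Q, hQ, h1⟩ := ih
    obtain ⟨R, hR, h2⟩ := (P_delta (G := G) (d := d) (b + k + 1)).2
    refine ⟨Q + LinearMap.id + R, (hQ.add NN.one).add hR, ?_⟩
    have : b + (k + 1) + 1 = b + k + 1 + 1 := by ring
    rw [this, h2, h1]; abel

theorem P_symm (n : ℕ) (u w : V →₀ ℝ) : pr (⇑w) (P G d n u) = pr (⇑(P G d n w)) u := by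
  induction n using Nat.twoStepInduction generalizing u w with
  | zero =>
    simp only [P_zero, LinearMap.zero_apply, map_zero]
    rw [pr_apply]; simp
  | one => simp [P_one]
  | more n h0 h1 =>
    have e : ∀ M : V →₀ ℝ, pr (⇑M) u = pr (⇑u) M := fun M => pr_comm u M
    rw [P_add_two_apply, P_add_two_apply, map_sub, map_add, map_smul, h0, h1, pr_Lap_symm, h1,
      P_comm_Lap]
    simp only [e, map_sub, map_add, map_smul]

/-- The kernel is symmetric. -/
theorem P_kernel_symm (n : ℕ) (x y : V) : P G d n (single x 1) y = P G d n (single y 1) x := by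
  have h := P_symm (G := G) (d := d) n (single x 1) (single y 1)
  rw [pr_single, pr_comm, pr_single] at h
  simpa using h

theorem pr_pos_of_ne {w : V →₀ ℝ} (x : V) (hx : w x ≠ 0) : 0 < pr (⇑w) w := by
  rw [pr_apply]
  apply Finset.sum_pos' (fun x _ => mul_self_nonneg _)
  exact ⟨x, Finsupp.mem_support_iff.mpr hx, mul_self_pos.mpr hx⟩

/-- Transitivity. -/
def Trans (G : SimpleGraph V) : Prop := ∀ x y : V, ∃ e : G ≃g G, e x = y

theorem Lap_map (e : G ≃g G) (m : V →₀ ℝ) (z : V) (m' : V →₀ ℝ) (h : ∀ z, m' (e z) = m z) :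
    Lap G d m' (e z) = Lap G d m z := by
  rw [Lap_apply, Lap_apply, h]
  congr 1
  symm
  apply Finset.sum_bij (fun y _ => e y)
  · intro y hy
    rw [SimpleGraph.mem_neighborFinset] at hy ⊢
    exact e.map_rel_iff.mpr hy
  · intro a _ b _ hab; exact e.injective hab
  · intro b hb
    rw [SimpleGraph.mem_neighborFinset] at hb
    refine ⟨e.symm b, ?_, by simp⟩
    rw [SimpleGraph.mem_neighborFinset]
    have : G.Adj (e z) (e (e.symm b)) := by simpa using hb
    exact e.map_rel_iff.mp this
  · intro y _; exact (h y).symm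

theorem P_map (e : G ≃g G) (n : ℕ) (m m' : V →₀ ℝ) (h : ∀ z, m' (e z) = m z) :
    ∀ z, P G d n m' (e z) = P G d n m z := by
  induction n using Nat.twoStepInduction with
  | zero => intro z; simp [P_zero]
  | one => intro z; simpa [P_one] using h z
  | more n h0 h1 =>
    intro z
    rw [P_add_two_apply, P_add_two_apply]
    simp only [Finsupp.sub_apply, Finsupp.add_apply, Finsupp.smul_apply]
    rw [h0, h1, Lap_map e _ z _ h1]

theorem P_diag (ht : Trans G) (n : ℕ) (x y : V) :
    P G d n (single x 1) x = P G d n (single y 1) y := by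
  classical
  obtain ⟨e, rfl⟩ := ht x y
  refine (P_map (d := d) e n (single x 1) (single (e x) 1) ?_ x).symm
  intro z
  rw [Finsupp.single_apply, Finsupp.single_apply]
  by_cases h : x = z
  · simp [h]
  · have : ¬ e x = e z := fun h' => h (e.injective h')
    simp [h]

theorem exists_degree (ht : Trans G) [Nonempty V] : ∃ d, ∀ x, G.degree x = d := by
  obtain ⟨o⟩ := (inferInstance : Nonempty V)
  refine ⟨G.degree o, fun x => ?_⟩
  obtain ⟨e, rfl⟩ := ht x o
  exact (e.degree_eq x).symm

section ineq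

variable (hd : ∀ x, G.degree x = d) (ht : Trans G)
include hd

theorem two_point {a b : ℕ} (h : b < a) (x y : V) (s : ℝ) (hw : single x (1 : ℝ) + s • single y (1 : ℝ) ≠ 0) :
    0 < pr (⇑(single x (1 : ℝ) + s • single y (1 : ℝ)))
      (P G d a (single x (1 : ℝ) + s • single y (1 : ℝ))) -
      pr (⇑(single x (1 : ℝ) + s • single y (1 : ℝ)))
      (P G d b (single x (1 : ℝ) + s • single y (1 : ℝ))) := by
  obtain ⟨Q, hQ, h1⟩ := P_lt (G := G) (d := d) h
  set w := single x (1 : ℝ) + s • single y (1 : ℝ) with hwdef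
  rw [h1]
  simp only [LinearMap.add_apply, LinearMap.id_apply, map_add]
  have h2 := hQ.nonneg hd w
  obtain ⟨z, hz⟩ : ∃ z, w z ≠ 0 := by
    by_contra hcon
    push Not at hcon
    exact hw (Finsupp.ext (by simpa using hcon))
  have h3 := pr_pos_of_ne z hz
  linarith

theorem quad (n : ℕ) (x y : V) (s : ℝ) :
    pr (⇑(single x (1 : ℝ) + s • single y (1 : ℝ)))
      (P G d n (single x (1 : ℝ) + s • single y (1 : ℝ))) =
      P G d n (single x 1) x + 2 * s * P G d n (single x 1) y + s ^ 2 * P G d n (single y 1) y := by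
  rw [pr_comm]
  simp only [map_add, map_smul, pr_single, Finsupp.add_apply, Finsupp.smul_apply, smul_eq_mul,
    one_mul]
  rw [P_kernel_symm n y x]
  ring

include ht

theorem P_diag_abs (n : ℕ) (x y : V) :
    |P G d n (single y 1) x| ≤ P G d n (single x 1) x := by
  have h : ∀ s : ℝ, s = 1 ∨ s = -1 → 0 ≤ P G d n (single x 1) x + s * P G d n (single x 1) y := by
    intro s hs
    have h1 := (P_delta (G := G) (d := d) n).1.nonneg hd (single x (1 : ℝ) + s • single y (1 : ℝ))
    rw [quad hd, P_diag ht n y x] at h1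
    rcases hs with rfl | rfl <;> nlinarith
  rw [P_kernel_symm, abs_le]
  have h1 := h 1 (Or.inl rfl)
  have h2 := h (-1) (Or.inr rfl)
  constructor <;> linarith

theorem P_diag_lt {a b : ℕ} (h : b < a) (x : V) :
    P G d b (single x 1) x < P G d a (single x 1) x := by
  have h1 := two_point hd h x x 0 (by simp)
  rw [quad hd, quad hd] at h1
  linarith

/-- The form `P a δ_x - ε P b δ_y` is nonzero at `x` if `b < a`. -/
theorem main_pos {a b : ℕ} (h : b < a) (x y : V) (s : ℝ) (hs : s = 1 ∨ s = -1) :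
    0 < P G d a (single x 1) x + s * P G d b (single y 1) x := by
  have h1 := P_diag_lt hd ht h x
  have h2 := abs_le.mp (P_diag_abs (d := d) hd ht b x y)
  rcases hs with rfl | rfl <;> linarith [h2.1, h2.2]

theorem main_pos' {a : ℕ} (h : 0 < a) {x y : V} (hxy : x ≠ y) (s : ℝ) (hs : s = 1 ∨ s = -1) :
    0 < P G d a (single x 1) x + s * P G d a (single y 1) x := by
  classical
  have h1 := two_point hd h x y s (by
    intro hcon
    have := DFunLike.congr_fun hcon x
    simp [Finsupp.single_apply, hxy.symm] at this)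
  rw [quad hd, quad hd, P_diag ht a y x] at h1
  simp only [P_zero, LinearMap.zero_apply, Finsupp.coe_zero, Pi.zero_apply] at h1
  rw [P_kernel_symm a y x]
  rcases hs with rfl | rfl <;> nlinarith

end ineq

end Pool.Agent.X223.HL
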