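import Pool.Agent.X223.HL.Pairs

/-!
# A far away new vertex can receive any unused value
-/

namespace Pool.Agent.X223.HL

open Finsupp

variable {V : Type*} {G : SimpleGraph V} [G.LocallyFinite] {d : ℕ}

theorem P_bdd (o : V) (w : V →₀ ℝ) (N : ℕ) :
    ∃ M, ∀ a z, a ≤ N → P G d a w z ≠ 0 → G.dist o z ≤ M := by
  classical
  refine ⟨((Finset.range (N + 1)).biUnion fun b => (P G d b w).support).sup (G.dist o),
    fun a z ha hz => ?_⟩
  apply Finset.le_sup (f := G.dist o)
  rw [Finset.mem_biUnion]
  exact ⟨a, by simp; omega, Finsupp.mem_support_iff.mpr hz⟩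

theorem family12 (hc : G.Connected) (o : V) (R : ℕ) (w : V →₀ ℝ) :
    ∃ M, ∀ a b v, b ≤ a + 1 → Sup G o R (P G d a w) → P G d b w v ≠ 0 → G.dist o v ≤ M := by
  classical
  rcases lemC (G := G) (d := d) w (ball_finite hc o R).toFinset with ⟨N, hN⟩ | ⟨F, hF⟩
  · obtain ⟨M, hM⟩ := P_bdd (G := G) (d := d) o w (N + 1)
    refine ⟨M, fun a b v hab ha hb => hM b v ?_ hb⟩
    have := hN a (fun z hz => ha z (by simpa using hz))
    omega
  · refine ⟨F.sup (G.dist o), fun a b v _ _ hb => ?_⟩
    apply Finset.le_sup (f := G.dist o)
    by_contra hcon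
    exact hb (hF b v hcon)

theorem family3 (hc : G.Connected) (ht : Trans G) [Infinite V] (o : V) (R : ℕ) (x y : V) :
    ∃ M, ∀ k v, Sup G o R (P G d (k + 1) (single x 1 + single y 1)) →
      (∀ z, R < G.dist o z → z ≠ v → P G d k (single x 1) z + P G d (k + 2) (single y 1) z = 0) →
      P G d k (single x 1) v + P G d (k + 2) (single y 1) v ≠ 0 → G.dist o v ≤ M := by
  classical
  have fin : ∀ N, ∃ M, ∀ k v, k ≤ N →
      P G d k (single x 1) v + P G d (k + 2) (single y 1) v ≠ 0 → G.dist o v ≤ M := by
    intro N
    obtain ⟨M1, hM1⟩ := P_bdd (G := G) (d := d) o (single x 1) (N + 2)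
    obtain ⟨M2, hM2⟩ := P_bdd (G := G) (d := d) o (single y 1) (N + 2)
    refine ⟨max M1 M2, fun k v hk hv => ?_⟩
    by_cases h : P G d k (single x 1) v = 0
    · rw [h, zero_add] at hv
      exact (hM2 _ v (by omega) hv).trans (le_max_right _ _)
    · exact (hM1 _ v (by omega) h).trans (le_max_left _ _)
  rcases lemC (G := G) (d := d) (single x 1 + single y 1) (ball_finite hc o R).toFinset with
    ⟨N, hN⟩ | ⟨F, hF⟩
  · obtain ⟨M, hM⟩ := fin N
    refine ⟨M, fun k v hk _ hv => hM k v ?_ hv⟩
    have := hN (k + 1) (fun z hz => hk z (by simpa using hz))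
    omega
  · obtain ⟨M, hM⟩ := fin (G.dist o y + R + F.sup (G.dist o))
    refine ⟨M, fun k v hk hz hv => hM k v ?_ hv⟩
    by_contra hcon
    obtain ⟨z, z', h1, h2, h3⟩ := antipodal hc ht y (k + 1)
    have key : ∀ u, G.dist y u = k + 1 → u = v := by
      intro u hu
      by_contra huv
      have h4 := hc.dist_triangle (u := y) (v := o) (w := u)
      rw [SimpleGraph.dist_comm (u := y) (v := o)] at h4
      have h5 := hz u (by omega) huv
      have h6 : u ∉ F := by
        intro h
        have := Finset.le_sup (f := G.dist o) h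
        omega
      have h7 := hF k u h6
      rw [map_add, Finsupp.add_apply, P_far hc k y u (by omega), add_zero] at h7
      rw [h7, zero_add] at h5
      exact P_sphere (d := d) hc (k + 1) y u hu h5
    have h8 : z = z' := (key z h1).trans (key z' h2).symm
    rw [h8] at h3
    simp at h3

section

variable (hc : G.Connected) (hd : ∀ x, G.degree x = d) (ht : Trans G) [Infinite V]
include hc hd ht

/-- The essential cases of the statement on new vertices. -/
theorem newv_core (o : V) (R : ℕ) : ∃ R', 20 * R + 20 ≤ R' ∧ ∀ v, R' < G.dist o v → ∀ p q : Pt V,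
    p ≠ q → Sup G o R (F1 G d p - F1 G d q) →
    (∀ z, R < G.dist o z → z ≠ v → (F0 G d p - F0 G d q) z = 0) →
    (F0 G d p - F0 G d q) v ≠ 0 → ¬ (p.2.2 = false ∧ q.2.2 = true) →
    (q = (v, 0, false) ∧ F0 G d p v = 0) ∨ (p = (v, 0, false) ∧ F0 G d q v = 0) := by
  classical
  choose M1 hM1 using fun x y : V =>
    family12 (d := d) hc o R (single x (1 : ℝ) - single y (1 : ℝ))
  choose M2 hM2 using fun x y : V => family3 (d := d) hc ht o R x y
  set B := (ball_finite hc o (5 * R + 5)).toFinset with hB
  have hBm : ∀ x, G.dist o x ≤ 5 * R + 5 → x ∈ B := fun x hx => by simpa [hB] using hx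
  refine ⟨(20 * R + 20) + (B ×ˢ B).sup (fun z => M1 z.1 z.2) + (B ×ˢ B).sup (fun z => M2 z.1 z.2),
    by omega, ?_⟩
  intro v hv p q hpq h1 h0 hne hcase
  have hm1 : ∀ x y, x ∈ B → y ∈ B → M1 x y ≤ (B ×ˢ B).sup (fun z => M1 z.1 z.2) := fun x y hx hy =>
    Finset.le_sup (f := fun z : V × V => M1 z.1 z.2) (Finset.mk_mem_product hx hy)
  have hm2 : ∀ x y, x ∈ B → y ∈ B → M2 x y ≤ (B ×ˢ B).sup (fun z => M2 z.1 z.2) := fun x y hx hy =>
    Finset.le_sup (f := fun z : V × V => M2 z.1 z.2) (Finset.mk_mem_product hx hy)
  have hfar : ∀ (n : ℕ) (x : V), G.dist o x ≤ 5 * R + 5 → n ≤ 2 * R + 3 →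
      P G d n (single x 1) v = 0 := by
    intro n x hx hn
    apply P_far hc
    have := hc.dist_triangle (u := o) (v := x) (w := v)
    omega
  obtain ⟨x, j, s⟩ := p
  obtain ⟨y, k, t⟩ := q
  cases s <;> cases t <;>
    simp only [F1, F0, if_true, Bool.false_eq_true, if_false, not_true_eq_false, and_true,
      not_false_eq_true, and_self, and_false] at h1 h0 hne hcase ⊢
  · -- both on the lower side
    have e1 : -P G d j (single x 1) - -P G d k (single y 1) =
      -(P G d j (single x 1) + (-1 : ℝ) • P G d k (single y 1)) := by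
      rw [neg_one_smul]; abel
    rw [e1] at h1
    have h1' := h1.neg
    rw [neg_neg] at h1'
    by_cases hjk : j = k
    · subst hjk
      have hxy : x ≠ y := fun h => hpq (by rw [h])
      rcases Nat.eq_zero_or_pos j with hj | hj
      · subst hj
        rw [zero_add, P_one] at hne ⊢
        simp only [LinearMap.id_apply, Finsupp.sub_apply, Finsupp.single_apply] at hne ⊢
        by_cases hyv : y = v
        · left; subst hyv; simp [hxy]
        · by_cases hxv : x = v
          · right; subst hxv; simp [hxy.symm]
          · exact absurd (by simp [hyv, hxv]) hne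
      · exfalso
        obtain ⟨hx, hy⟩ := lemB hc hd ht o R j x y hxy (-1) (Or.inr rfl) hj h1'
        have e2 : P G d j (single x 1) + (-1 : ℝ) • P G d j (single y 1) =
          P G d j (single x 1 - single y 1) := by rw [neg_one_smul, map_sub]; abel
        rw [e2] at h1'
        rw [← map_sub] at hne
        have h3 := hM1 x y j (j + 1) v le_rfl h1' hne
        have h4 := hm1 x y (hBm x (by omega)) (hBm y (by omega))
        omega
    · by_cases hk : k = 0
      · subst hk
        rw [P_zero] at h1'
        simp only [LinearMap.zero_apply, smul_zero, add_zero] at h1'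
        have h2 := lemA0 hc hd ht o R j x (by omega) h1'
        have h3 := hfar (j + 1) x (by omega) (by omega)
        left
        rw [Finsupp.sub_apply, h3, zero_add, P_one, LinearMap.id_apply, Finsupp.single_apply] at hne
        by_cases hyv : y = v
        · exact ⟨by rw [hyv], h3⟩
        · exact absurd (by simp [hyv]) hne
      · by_cases hj : j = 0
        · subst hj
          rw [P_zero] at h1'
          simp only [LinearMap.zero_apply, zero_add] at h1'
          have h1'' : Sup G o R (P G d k (single y 1)) := by
            intro z hz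
            have := h1' z hz
            rw [Finsupp.smul_apply, smul_eq_mul] at this
            linarith
          have h2 := lemA0 hc hd ht o R k y (by omega) h1''
          have h3 := hfar (k + 1) y (by omega) (by omega)
          right
          rw [Finsupp.sub_apply, h3, zero_add, P_one, LinearMap.id_apply,
            Finsupp.single_apply] at hne
          by_cases hxv : x = v
          · exact ⟨by rw [hxv], h3⟩
          · exact absurd (by simp [hxv]) hne
        · exfalso
          have h2 := lemA' hc hd ht o R j k x y (-1) (Or.inr rfl) (by omega) (by omega) hjk h1'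
          apply hne
          rw [Finsupp.sub_apply, hfar (j + 1) x (by omega) (by omega),
            hfar (k + 1) y (by omega) (by omega), sub_zero]
  · -- mixed
    have e1 : P G d (j + 1) (single x 1) - -P G d k (single y 1) =
      P G d (j + 1) (single x 1) + (1 : ℝ) • P G d k (single y 1) := by rw [one_smul]; abel
    rw [e1] at h1
    rcases Nat.eq_zero_or_pos k with hk | hk
    · subst hk
      rw [P_zero] at h1
      simp only [LinearMap.zero_apply, smul_zero, add_zero] at h1
      have h2 := lemA0 hc hd ht o R (j + 1) x (by omega) h1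
      have h3 := hfar j x (by omega) (by omega)
      left
      rw [Finsupp.sub_apply, Finsupp.neg_apply, h3, zero_add, P_one, LinearMap.id_apply,
        Finsupp.single_apply] at hne
      by_cases hyv : y = v
      · exact ⟨by rw [hyv], by rw [Finsupp.neg_apply, h3, neg_zero]⟩
      · exact absurd (by simp [hyv]) hne
    · exfalso
      by_cases hjk : j + 1 = k
      · subst hjk
        by_cases hxy : x = y
        · subst hxy
          have h1'' : Sup G o R (P G d (j + 1) (single x 1)) := by
            intro z hz
            have := h1 z hz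
            rw [Finsupp.add_apply, Finsupp.smul_apply, smul_eq_mul] at this
            linarith
          have h2 := lemA0 hc hd ht o R (j + 1) x (by omega) h1''
          apply hne
          rw [Finsupp.sub_apply, Finsupp.neg_apply, hfar j x (by omega) (by omega),
            hfar (j + 1 + 1) x (by omega) (by omega)]
          simp
        · obtain ⟨hx, hy⟩ := lemB hc hd ht o R (j + 1) x y hxy 1 (Or.inl rfl) (by omega) h1
          have e2 : P G d (j + 1) (single x 1) + (1 : ℝ) • P G d (j + 1) (single y 1) =
            P G d (j + 1) (single x 1 + single y 1) := by rw [one_smul, map_add]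
          rw [e2] at h1
          have h3 := hM2 x y j v h1 (by
            intro z hz hzv
            have := h0 z hz hzv
            rw [Finsupp.sub_apply, Finsupp.neg_apply] at this
            linarith) (by
            intro hcon
            apply hne
            rw [Finsupp.sub_apply, Finsupp.neg_apply]
            linarith)
          have h4 := hm2 x y (hBm x (by omega)) (hBm y (by omega))
          omega
      · have h2 := lemA' hc hd ht o R (j + 1) k x y 1 (Or.inl rfl) (by omega) hk hjk h1
        apply hne
        rw [Finsupp.sub_apply, Finsupp.neg_apply, hfar j x (by omega) (by omega),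
          hfar (k + 1) y (by omega) (by omega)]
        simp
  · -- both on the upper side
    exfalso
    have e1 : P G d (j + 1) (single x 1) - P G d (k + 1) (single y 1) =
      (P G d (j + 1) (single x 1) + (-1 : ℝ) • P G d (k + 1) (single y 1)) := by
      rw [neg_one_smul]; abel
    rw [e1] at h1
    by_cases hjk : j = k
    · subst hjk
      have hxy : x ≠ y := fun h => hpq (by rw [h])
      obtain ⟨hx, hy⟩ := lemB hc hd ht o R (j + 1) x y hxy (-1) (Or.inr rfl) (by omega) h1
      have e2 : P G d (j + 1) (single x 1) + (-1 : ℝ) • P G d (j + 1) (single y 1) =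
        P G d (j + 1) (single x 1 - single y 1) := by rw [neg_one_smul, map_sub]; abel
      rw [e2] at h1
      have h3 := hM1 x y (j + 1) j v (by omega) h1 (by
        intro hcon
        apply hne
        rw [map_sub, Finsupp.sub_apply] at hcon
        rw [Finsupp.sub_apply, Finsupp.neg_apply, Finsupp.neg_apply]
        linarith)
      have h4 := hm1 x y (hBm x (by omega)) (hBm y (by omega))
      omega
    · have h2 := lemA' hc hd ht o R (j + 1) (k + 1) x y (-1) (Or.inr rfl) (by omega) (by omega)
        (by omega) h1
      apply hne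
      rw [Finsupp.sub_apply, Finsupp.neg_apply, Finsupp.neg_apply, hfar j x (by omega) (by omega),
        hfar k y (by omega) (by omega)]
      simp

theorem newv (o : V) (R : ℕ) : ∃ R', R ≤ R' ∧ ∀ v, R' < G.dist o v → ∀ p q : Pt V,
    p ≠ q → Sup G o R (F1 G d p - F1 G d q) →
    (∀ z, R < G.dist o z → z ≠ v → (F0 G d p - F0 G d q) z = 0) →
    (F0 G d p - F0 G d q) v ≠ 0 →
    (q = (v, 0, false) ∧ F0 G d p v = 0) ∨ (p = (v, 0, false) ∧ F0 G d q v = 0) := by
  obtain ⟨R', hR, h⟩ := newv_core hc hd ht o R
  refine ⟨R', by omega, fun v hv p q hpq h1 h0 hne => ?_⟩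
  by_cases hcase : p.2.2 = false ∧ q.2.2 = true
  · have e1 : F1 G d q - F1 G d p = -(F1 G d p - F1 G d q) := by abel
    have e0 : F0 G d q - F0 G d p = -(F0 G d p - F0 G d q) := by abel
    have := h v hv q p hpq.symm (by rw [e1]; exact h1.neg)
      (by intro z hz hzv; rw [e0, Finsupp.neg_apply, h0 z hz hzv, neg_zero])
      (by rw [e0, Finsupp.neg_apply]; exact neg_ne_zero.mpr hne)
      (by rintro ⟨h2, _⟩; rw [hcase.2] at h2; exact absurd h2 (by simp))
    exact this.symm
  · exact h v hv p q hpq h1 h0 hne hcase

end

end Pool.Agent.X223.HL
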