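import Pool.Agent.X223.HL.Alg

/-!
# Pairs of points whose value forms differ by a form supported on a given finite set
-/

namespace Pool.Agent.X223.HL

open Finsupp

variable {V : Type*} (G : SimpleGraph V) [G.LocallyFinite] (d : ℕ)

/-- `m` vanishes outside the ball of radius `R` around `o`. -/
def Sup (o : V) (R : ℕ) (m : V →₀ ℝ) : Prop := ∀ z, R < G.dist o z → m z = 0

/-- Points of `G x Z`: `(x, j, true)` is at level `j + 1`, `(x, j, false)` at level `-j`. -/
abbrev Pt (V : Type*) := V × ℕ × Bool

/-- Coefficients of the value at a point with respect to layer 1. -/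
noncomputable def F1 (p : Pt V) : V →₀ ℝ :=
  if p.2.2 = true then P G d (p.2.1 + 1) (single p.1 1) else - P G d p.2.1 (single p.1 1)

/-- Coefficients of the value at a point with respect to layer 0. -/
noncomputable def F0 (p : Pt V) : V →₀ ℝ :=
  if p.2.2 = true then - P G d p.2.1 (single p.1 1) else P G d (p.2.1 + 1) (single p.1 1)

variable {G d}

omit [G.LocallyFinite] in
theorem Sup.neg {o : V} {R : ℕ} {m : V →₀ ℝ} (h : Sup G o R m) : Sup G o R (-m) := by
  intro z hz
  rw [Finsupp.neg_apply, h z hz, neg_zero]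

omit [G.LocallyFinite] in
theorem Sup.mono {o : V} {R R' : ℕ} {m : V →₀ ℝ} (h : Sup G o R m) (hR : R ≤ R') : Sup G o R' m :=
  fun z hz => h z (lt_of_le_of_lt hR hz)

theorem near_of_ne (hc : G.Connected) {n : ℕ} {x z : V} (h : P G d n (single x 1) z ≠ 0) :
    G.dist x z < n := by
  by_contra hcon
  exact h (P_far hc n x z (by omega))

section

variable (hc : G.Connected) (hd : ∀ x, G.degree x = d) (ht : Trans G) [Infinite V]
include hc hd ht

theorem lemA0 (o : V) (R a : ℕ) (x : V) (ha : 1 ≤ a) (h : Sup G o R (P G d a (single x 1))) :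
    G.dist o x ≤ R ∧ a ≤ 2 * R + 1 := by
  have h1 : G.dist o x ≤ R := by
    by_contra hcon
    have h2 := h x (by omega)
    have h3 := P_diag_lt hd ht (show 0 < a by omega) x
    rw [h2] at h3
    simp [P_zero] at h3
  refine ⟨h1, ?_⟩
  obtain ⟨z, hz⟩ := exists_dist hc x (a - 1)
  have h2 : P G d a (single x 1) z ≠ 0 := by
    have := P_sphere (d := d) hc (a - 1) x z hz
    rwa [Nat.sub_add_cancel ha] at this
  have h3 : G.dist o z ≤ R := by
    by_contra hcon
    exact h2 (h z (by omega))
  have h4 := hc.dist_triangle (u := x) (v := o) (w := z)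
  rw [SimpleGraph.dist_comm (u := x) (v := o)] at h4
  omega

theorem lemA (o : V) (R a b : ℕ) (x y : V) (s : ℝ) (hs : s = 1 ∨ s = -1) (hb : 1 ≤ b) (hab : b < a)
    (h : Sup G o R (P G d a (single x 1) + s • P G d b (single y 1))) :
    G.dist o x ≤ R ∧ G.dist o y ≤ 5 * R + 5 ∧ a ≤ 2 * R + 1 ∧ b ≤ 2 * R + 1 := by
  have hs0 : s ≠ 0 := by rcases hs with rfl | rfl <;> norm_num
  have hx : G.dist o x ≤ R := by
    by_contra hcon
    have h2 := h x (by omega)
    have h3 := main_pos hd ht hab x y s hs
    rw [Finsupp.add_apply, Finsupp.smul_apply, smul_eq_mul] at h2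
    linarith
  have ha : a ≤ 2 * R + 1 := by
    by_contra hcon
    obtain ⟨z, z', hz, hz', hzz⟩ := antipodal hc ht x (a - 1)
    have key : ∀ u, G.dist x u = a - 1 → G.dist y u < b := by
      intro u hu
      have h1 : P G d a (single x 1) u ≠ 0 := by
        have := P_sphere (d := d) hc (a - 1) x u hu
        rwa [Nat.sub_add_cancel (by omega)] at this
      have h4 := hc.dist_triangle (u := x) (v := o) (w := u)
      rw [SimpleGraph.dist_comm (u := x) (v := o)] at h4
      have h5 := h u (by omega)
      rw [Finsupp.add_apply, Finsupp.smul_apply, smul_eq_mul] at h5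
      apply near_of_ne (d := d) hc
      intro h6
      rw [h6, mul_zero, add_zero] at h5
      exact h1 h5
    have h1 := key z hz
    have h2 := key z' hz'
    have h4 := hc.dist_triangle (u := z) (v := y) (w := z')
    rw [SimpleGraph.dist_comm (u := z) (v := y)] at h4
    omega
  refine ⟨hx, ?_, ha, by omega⟩
  obtain ⟨z, hz⟩ := exists_dist hc y (b - 1)
  have h2 : P G d b (single y 1) z ≠ 0 := by
    have := P_sphere (d := d) hc (b - 1) y z hz
    rwa [Nat.sub_add_cancel hb] at this
  have h3 : G.dist o z ≤ 3 * R + 1 := by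
    by_contra hcon
    have h5 := h z (by omega)
    rw [Finsupp.add_apply, Finsupp.smul_apply, smul_eq_mul] at h5
    have h6 : P G d a (single x 1) z = 0 := by
      apply P_far hc
      have h4 := hc.dist_triangle (u := o) (v := x) (w := z)
      omega
    rw [h6, zero_add] at h5
    rcases mul_eq_zero.mp h5 with h7 | h7
    · exact hs0 h7
    · exact h2 h7
  have h4 := hc.dist_triangle (u := o) (v := z) (w := y)
  rw [SimpleGraph.dist_comm (u := z) (v := y)] at h4
  omega

theorem lemA' (o : V) (R a b : ℕ) (x y : V) (s : ℝ) (hs : s = 1 ∨ s = -1) (ha : 1 ≤ a) (hb : 1 ≤ b)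
    (hab : a ≠ b) (h : Sup G o R (P G d a (single x 1) + s • P G d b (single y 1))) :
    G.dist o x ≤ 5 * R + 5 ∧ G.dist o y ≤ 5 * R + 5 ∧ a ≤ 2 * R + 1 ∧ b ≤ 2 * R + 1 := by
  rcases Nat.lt_or_ge b a with h1 | h1
  · have := lemA hc hd ht o R a b x y s hs hb h1 h
    omega
  · have h2 : Sup G o R (P G d b (single y 1) + s • P G d a (single x 1)) := by
      intro z hz
      have := h z hz
      rw [Finsupp.add_apply, Finsupp.smul_apply, smul_eq_mul] at this ⊢
      rcases hs with rfl | rfl
      · linarith
      · linarith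
    have := lemA hc hd ht o R b a y x s hs ha (by omega) h2
    omega

theorem lemB (o : V) (R a : ℕ) (x y : V) (hxy : x ≠ y) (s : ℝ) (hs : s = 1 ∨ s = -1) (ha : 1 ≤ a)
    (h : Sup G o R (P G d a (single x 1) + s • P G d a (single y 1))) :
    G.dist o x ≤ R ∧ G.dist o y ≤ R := by
  constructor
  · by_contra hcon
    have h2 := h x (by omega)
    have h3 := main_pos' hd ht (show 0 < a by omega) hxy s hs
    rw [Finsupp.add_apply, Finsupp.smul_apply, smul_eq_mul] at h2
    linarith
  · by_contra hcon
    have h2 := h y (by omega)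
    have h3 := main_pos' hd ht (show 0 < a by omega) hxy.symm s hs
    rw [Finsupp.add_apply, Finsupp.smul_apply, smul_eq_mul] at h2
    rcases hs with rfl | rfl
    · linarith
    · linarith

/-- Bounded data. -/
def Bdd (G : SimpleGraph V) (o : V) (C : ℕ) (p q : Pt V) : Prop :=
  G.dist o p.1 ≤ C ∧ G.dist o q.1 ≤ C ∧ p.2.1 ≤ C ∧ q.2.1 ≤ C

theorem bdd_mixed (o : V) (R j k : ℕ) (x y : V)
    (h1 : Sup G o R (P G d (j + 1) (single x 1) + P G d k (single y 1)))
    (h0 : Sup G o R (P G d j (single x 1) + P G d (k + 1) (single y 1))) :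
    G.dist o x ≤ 5 * R + 5 ∧ G.dist o y ≤ 5 * R + 5 ∧ j ≤ 2 * R + 1 ∧ k ≤ 2 * R + 1 := by
  classical
  have e1 : P G d (j + 1) (single x 1) + P G d k (single y 1) =
    P G d (j + 1) (single x 1) + (1 : ℝ) • P G d k (single y 1) := by rw [one_smul]
  have e0 : P G d j (single x 1) + P G d (k + 1) (single y 1) =
    P G d j (single x 1) + (1 : ℝ) • P G d (k + 1) (single y 1) := by rw [one_smul]
  rcases Nat.eq_zero_or_pos k with hk | hk
  · subst hk
    rw [P_zero] at h1
    simp only [LinearMap.zero_apply, add_zero] at h1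
    have h2 := lemA0 hc hd ht o R (j + 1) x (by omega) h1
    refine ⟨by omega, ?_, by omega, by omega⟩
    by_contra hcon
    have h3 := h0 y (by omega)
    rw [zero_add, P_one, Finsupp.add_apply, LinearMap.id_apply] at h3
    have h4 : P G d j (single x 1) y = 0 := by
      apply P_far hc
      have h4 := hc.dist_triangle (u := o) (v := x) (w := y)
      omega
    rw [h4] at h3
    simp at h3
  · rcases Nat.eq_zero_or_pos j with hj | hj
    · subst hj
      rw [P_zero] at h0
      simp only [LinearMap.zero_apply, zero_add] at h0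
      have h2 := lemA0 hc hd ht o R (k + 1) y (by omega) h0
      refine ⟨?_, by omega, by omega, by omega⟩
      by_contra hcon
      have h3 := h1 x (by omega)
      rw [zero_add, P_one, Finsupp.add_apply, LinearMap.id_apply] at h3
      have h4 : P G d k (single y 1) x = 0 := by
        apply P_far hc
        have h4 := hc.dist_triangle (u := o) (v := y) (w := x)
        omega
      rw [h4] at h3
      simp at h3
    · rcases Nat.lt_trichotomy (j + 1) k with h | h | h
      · rw [e1] at h1
        have := lemA' hc hd ht o R (j + 1) k x y 1 (Or.inl rfl) (by omega) hk (by omega) h1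
        omega
      · rw [e0] at h0
        have := lemA' hc hd ht o R j (k + 1) x y 1 (Or.inl rfl) hj (by omega) (by omega) h0
        omega
      · rw [e1] at h1
        have := lemA' hc hd ht o R (j + 1) k x y 1 (Or.inl rfl) (by omega) hk (by omega) h1
        omega

/-- Only finitely many pairs outside the families. -/
theorem bdd_pairs (o : V) (R : ℕ) (p q : Pt V) (hpq : p.2 ≠ q.2)
    (h1 : Sup G o R (F1 G d p - F1 G d q)) (h0 : Sup G o R (F0 G d p - F0 G d q)) :
    Bdd G o (5 * R + 5) p q := by
  obtain ⟨x, j, s⟩ := p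
  obtain ⟨y, k, t⟩ := q
  unfold Bdd
  cases s <;> cases t <;> simp only [F1, F0, if_true, Bool.false_eq_true, if_false] at h1 h0 ⊢
  · have hjk : j ≠ k := fun h => hpq (by rw [h])
    have e : P G d (j + 1) (single x 1) - P G d (k + 1) (single y 1) =
      P G d (j + 1) (single x 1) + (-1 : ℝ) • P G d (k + 1) (single y 1) := by
      rw [neg_one_smul]; abel
    rw [e] at h0
    have := lemA' hc hd ht o R (j + 1) (k + 1) x y (-1) (Or.inr rfl) (by omega) (by omega)
      (by omega) h0
    omega
  · have e1 : -P G d j (single x 1) - P G d (k + 1) (single y 1) =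
      -(P G d (k + 1) (single y 1) + P G d j (single x 1)) := by abel
    have e0 : P G d (j + 1) (single x 1) - -P G d k (single y 1) =
      (P G d k (single y 1) + P G d (j + 1) (single x 1)) := by abel
    rw [e1] at h1
    rw [e0] at h0
    have h1' := h1.neg
    rw [neg_neg] at h1'
    have := bdd_mixed hc hd ht o R k j y x h1' h0
    omega
  · have e0 : -P G d j (single x 1) - P G d (k + 1) (single y 1) =
      -(P G d j (single x 1) + P G d (k + 1) (single y 1)) := by abel
    have e1 : P G d (j + 1) (single x 1) - -P G d k (single y 1) =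
      (P G d (j + 1) (single x 1) + P G d k (single y 1)) := by abel
    rw [e1] at h1
    rw [e0] at h0
    have h0' := h0.neg
    rw [neg_neg] at h0'
    have := bdd_mixed hc hd ht o R j k x y h1 h0'
    omega
  · have hjk : j ≠ k := fun h => hpq (by rw [h])
    have e : P G d (j + 1) (single x 1) - P G d (k + 1) (single y 1) =
      P G d (j + 1) (single x 1) + (-1 : ℝ) • P G d (k + 1) (single y 1) := by
      rw [neg_one_smul]; abel
    rw [e] at h1
    have := lemA' hc hd ht o R (j + 1) (k + 1) x y (-1) (Or.inr rfl) (by omega) (by omega)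
      (by omega) h1
    omega

end

end Pool.Agent.X223.HL
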