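import Mathlib

/-!
# Exponential sums and thin sets
-/

namespace Pool.Agent.X223.HL

open Filter Topology

/-- Finite combinations of the sequences `ρ ^ n`, `ρ > 0`. -/
noncomputable def ES : Submodule ℝ (ℕ → ℝ) :=
  Submodule.span ℝ (Set.range (fun (r : {r : ℝ // 0 < r}) => fun n : ℕ => r.1 ^ n))

theorem ES_pow {r : ℝ} (hr : 0 < r) : (fun n : ℕ => r ^ n) ∈ ES :=
  Submodule.subset_span ⟨⟨r, hr⟩, rfl⟩

theorem ES_lim {g : ℕ → ℝ} (hg : g ∈ ES) : g = 0 ∨ ∃ r A : ℝ, 0 < r ∧ A ≠ 0 ∧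
    Tendsto (fun n => g n / r ^ n) atTop (𝓝 A) := by
  classical
  obtain ⟨c, hc⟩ := Finsupp.mem_span_range_iff_exists_finsupp.mp hg
  by_cases h0 : c = 0
  · left; rw [← hc, h0]; simp
  · right
    obtain ⟨r, hr1, hr2⟩ := Finset.exists_max_image c.support (fun r => r.1)
      (Finsupp.support_nonempty_iff.mpr h0)
    refine ⟨r.1, c r, r.2, Finsupp.mem_support_iff.mp hr1, ?_⟩
    have h1 : (fun n => g n / r.1 ^ n) = fun n => ∑ s ∈ c.support, c s * (s.1 / r.1) ^ n := by
      funext n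
      rw [← hc, Finsupp.sum, Finset.sum_apply, Finset.sum_div]
      apply Finset.sum_congr rfl
      intro s _
      simp only [Pi.smul_apply, smul_eq_mul]
      rw [div_pow, mul_div_assoc]
    rw [h1]
    have h2 : c r = ∑ s ∈ c.support, c s * (if s = r then 1 else 0) := by
      rw [Finset.sum_eq_single r]
      · simp
      · intro b _ hb; simp [hb]
      · intro h; exact absurd hr1 h
    rw [h2]
    apply tendsto_finsetSum
    intro s hs
    apply Tendsto.const_mul
    by_cases hsr : s = r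
    · subst hsr
      rw [if_pos rfl]
      have : (fun n : ℕ => (s.1 / s.1) ^ n) = fun _ => (1 : ℝ) := by
        funext n; rw [div_self s.2.ne', one_pow]
      show Tendsto (fun n : ℕ => (s.1 / s.1) ^ n) atTop (𝓝 1)
      rw [this]; exact tendsto_const_nhds
    · rw [if_neg hsr]
      apply tendsto_pow_atTop_nhds_zero_of_lt_one (div_nonneg s.2.le r.2.le)
      rw [div_lt_one r.2]
      exact lt_of_le_of_ne (hr2 s hs) (fun h => hsr (Subtype.ext h))

theorem ES_rec {l : ℝ} (hl : 0 < l) (x : ℕ → ℝ) (hx : ∀ n, x (n + 2) = (2 + l) * x (n + 1) - x n) :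
    x ∈ ES := by
  set s := Real.sqrt ((2 + l) ^ 2 - 4) with hs
  have hs0 : 0 < s := Real.sqrt_pos.mpr (by nlinarith)
  have hs2 : s ^ 2 = (2 + l) ^ 2 - 4 := Real.sq_sqrt (by nlinarith)
  set α := ((2 + l) + s) / 2 with hα
  set β := ((2 + l) - s) / 2 with hβ
  have h1 : α + β = 2 + l := by rw [hα, hβ]; ring
  have h2 : α * β = 1 := by rw [hα, hβ]; nlinarith
  have hα0 : 0 < α := by rw [hα]; positivity
  have hβ0 : 0 < β := by
    by_contra hcon
    push Not at hcon
    nlinarith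
  have hab : α - β ≠ 0 := by
    have : α - β = s := by rw [hα, hβ]; ring
    rw [this]; exact hs0.ne'
  have h3 : x = ((x 1 - β * x 0) / (α - β)) • (fun n : ℕ => α ^ n) +
      ((α * x 0 - x 1) / (α - β)) • (fun n : ℕ => β ^ n) := by
    funext n
    simp only [Pi.add_apply, Pi.smul_apply, smul_eq_mul]
    induction n using Nat.twoStepInduction with
    | zero => field_simp; ring
    | one => field_simp; ring
    | more n h0 h1' =>
      rw [hx, h1', h0, ← h1]
      have e1 : α ^ (n + 2) = (α + β) * α ^ (n + 1) - α * β * α ^ n := by ring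
      have e2 : β ^ (n + 2) = (α + β) * β ^ (n + 1) - α * β * β ^ n := by ring
      rw [e1, e2, h2]; ring
  rw [h3]
  exact ES.add_mem (ES.smul_mem _ (ES_pow hα0)) (ES.smul_mem _ (ES_pow hβ0))

/-- Sets of naturals with logarithmic counting function. -/
def Thin (T : Set ℕ) : Prop := ∃ C : ℕ, ∀ X : ℕ, (T ∩ Set.Iio (2 ^ X)).ncard ≤ C * (X + 1)

theorem Thin.subset {S T : Set ℕ} (hT : Thin T) (h : S ⊆ T) : Thin S := by
  obtain ⟨C, hC⟩ := hT
  refine ⟨C, fun X => le_trans (Set.ncard_le_ncard (Set.inter_subset_inter_left _ h) ?_) (hC X)⟩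
  exact (Set.finite_Iio _).subset Set.inter_subset_right

theorem Thin.union {S T : Set ℕ} (hS : Thin S) (hT : Thin T) : Thin (S ∪ T) := by
  obtain ⟨C, hC⟩ := hS
  obtain ⟨D, hD⟩ := hT
  refine ⟨C + D, fun X => ?_⟩
  rw [Set.union_inter_distrib_right]
  refine (Set.ncard_union_le _ _).trans ?_
  have := hC X
  have := hD X
  rw [add_mul]; omega

theorem thin_finite {T : Set ℕ} (hT : T.Finite) : Thin T := by
  refine ⟨T.ncard, fun X => ?_⟩
  refine (Set.ncard_le_ncard Set.inter_subset_left hT).trans ?_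
  nlinarith

theorem thin_biUnion {ι : Type*} {s : Set ι} (hs : s.Finite) (T : ι → Set ℕ)
    (h : ∀ i ∈ s, Thin (T i)) : Thin (⋃ i ∈ s, T i) := by
  induction s, hs using Set.Finite.induction_on with
  | empty => simpa using thin_finite Set.finite_empty
  | @insert a s _ _ ih =>
    rw [Set.biUnion_insert]
    exact (h a (Set.mem_insert _ _)).union (ih fun i hi => h i (Set.mem_insert_of_mem _ hi))

theorem Thin.exists_not_mem {T : Set ℕ} (hT : Thin T) : ∃ t, t ∉ T := by
  by_contra hcon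
  push Not at hcon
  obtain ⟨C, hC⟩ := hT
  have h1 : T = Set.univ := Set.eq_univ_of_forall hcon
  have h2 : ∀ X : ℕ, 2 ^ X ≤ C * (X + 1) := by
    intro X
    have h3 := hC X
    rw [h1, Set.univ_inter, ← Finset.coe_Iio, Set.ncard_coe_finset, Nat.card_Iio] at h3
    exact h3
  have h4 : ∀ n : ℕ, n + 1 ≤ 2 ^ n := fun n => Nat.lt_two_pow_self
  have h5 := h2 (2 * (C + 2))
  have h6 := h4 (C + 2)
  have h7 : 2 ^ (2 * (C + 2)) = 2 ^ (C + 2) * 2 ^ (C + 2) := by rw [two_mul, pow_add]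
  have h8 : 4 * 2 ^ C = 2 ^ (C + 2) := by rw [pow_add]; ring
  have h9 := h4 C
  rw [h7] at h5
  nlinarith

theorem thin_seq {e c : ℕ → ℝ} (he : e ∈ ES) (hc : c ∈ ES) :
    Thin {t : ℕ | ∃ n, c n ≠ 0 ∧ e n + t * c n = 0} := by
  classical
  set φ : ℕ → ℕ := fun n => ⌊-e n / c n⌋₊ with hφ
  have hφt : ∀ n t : ℕ, c n ≠ 0 → e n + t * c n = 0 → t = φ n := by
    intro n t h1 h2
    have : -e n / c n = (t : ℝ) := by
      rw [div_eq_iff h1]; linarith
    rw [hφ]; simp only [this, Nat.floor_natCast]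
  rcases ES_lim hc with h0 | ⟨s, C, hs, hC, hcl⟩
  · apply (thin_finite Set.finite_empty).subset
    rintro t ⟨n, h1, _⟩
    exact absurd (by rw [h0]; rfl) h1
  rcases ES_lim he with h0 | ⟨r, A, hr, hA, hel⟩
  · apply (thin_finite (Set.finite_singleton 0)).subset
    rintro t ⟨n, h1, h2⟩
    rw [h0] at h2
    simp only [Pi.zero_apply, zero_add, mul_eq_zero] at h2
    rcases h2 with h2 | h2
    · simpa using h2
    · exact absurd h2 h1
  have hce : ∀ᶠ n in atTop, |C| / 2 < |c n / s ^ n| ∧ |c n / s ^ n| < |C| + 1 := by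
    have h1 := hcl.abs
    have hC' : 0 < |C| := abs_pos.mpr hC
    exact (h1.eventually (lt_mem_nhds (by linarith))).and (h1.eventually (gt_mem_nhds (by linarith)))
  have hee : ∀ᶠ n in atTop, |A| / 2 < |e n / r ^ n| ∧ |e n / r ^ n| < |A| + 1 := by
    have h1 := hel.abs
    have hA' : 0 < |A| := abs_pos.mpr hA
    exact (h1.eventually (lt_mem_nhds (by linarith))).and (h1.eventually (gt_mem_nhds (by linarith)))
  obtain ⟨n0, hn0⟩ := eventually_atTop.mp (hce.and hee)
  have hC' : 0 < |C| := abs_pos.mpr hC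
  have hA' : 0 < |A| := abs_pos.mpr hA
  have hb : ∀ n, n0 ≤ n → |C| / 2 * s ^ n < |c n| ∧ |c n| < (|C| + 1) * s ^ n ∧
      |A| / 2 * r ^ n < |e n| ∧ |e n| < (|A| + 1) * r ^ n := by
    intro n hn
    obtain ⟨⟨h1, h2⟩, h3, h4⟩ := hn0 n hn
    have hsn : 0 < s ^ n := pow_pos hs n
    have hrn : 0 < r ^ n := pow_pos hr n
    rw [abs_div, abs_of_pos hsn] at h1 h2
    rw [abs_div, abs_of_pos hrn] at h3 h4
    rw [lt_div_iff₀ hsn] at h1
    rw [div_lt_iff₀ hsn] at h2
    rw [lt_div_iff₀ hrn] at h3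
    rw [div_lt_iff₀ hrn] at h4
    exact ⟨h1, h2, h3, h4⟩
  have habs : ∀ n t : ℕ, e n + t * c n = 0 → |e n| = t * |c n| := by
    intro n t h
    have : e n = -(t * c n) := by linarith
    rw [this, abs_neg, abs_mul, Nat.abs_cast]
  rcases le_or_gt r s with hrs | hrs
  · -- bounded ratio
    apply thin_finite
    have hfin : ({t : ℕ | (t : ℝ) ≤ 2 * (|A| + 1) / |C|} ∪ (φ '' Set.Iio n0)).Finite := by
      apply Set.Finite.union
      · apply (Set.finite_Iic ⌊2 * (|A| + 1) / |C|⌋₊).subset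
        intro t ht
        exact Nat.le_floor ht
      · exact (Set.finite_Iio n0).image _
    apply hfin.subset
    rintro t ⟨n, h1, h2⟩
    rcases Nat.lt_or_ge n n0 with hn | hn
    · right; exact ⟨n, hn, (hφt n t h1 h2).symm⟩
    · left
      obtain ⟨h3, _, _, h6⟩ := hb n hn
      have h7 := habs n t h2
      have h8 : r ^ n ≤ s ^ n := pow_le_pow_left₀ hr.le hrs n
      have hsn : 0 < s ^ n := pow_pos hs n
      show (t : ℝ) ≤ 2 * (|A| + 1) / |C|
      rw [le_div_iff₀ hC']
      by_contra hcon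
      push Not at hcon
      have ht : (0 : ℝ) ≤ t := Nat.cast_nonneg t
      have h9 : (t : ℝ) * (|C| / 2 * s ^ n) ≤ t * |c n| := mul_le_mul_of_nonneg_left h3.le ht
      have h10 : |e n| < (|A| + 1) * s ^ n :=
        lt_of_lt_of_le h6 (mul_le_mul_of_nonneg_left h8 (by positivity))
      have h11 : (|A| + 1) * s ^ n < t * (|C| / 2 * s ^ n) := by
        have : (|A| + 1) < t * (|C| / 2) := by linarith
        nlinarith
      linarith
  · -- exponential growth
    set q := r / s with hq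
    have hq1 : 1 < q := by rw [hq, one_lt_div hs]; exact hrs
    set κ := |A| / (2 * (|C| + 1)) with hκ
    have hκ0 : 0 < κ := by positivity
    obtain ⟨m1, hm1⟩ := pow_unbounded_of_one_lt 2 hq1
    obtain ⟨m2, hm2⟩ := pow_unbounded_of_one_lt (1 / κ) hq1
    set m := m1 + m2 with hm
    have hqm : 2 ≤ q ^ m := hm1.le.trans (pow_le_pow_right₀ hq1.le (by omega))
    have hκm : 1 ≤ κ * q ^ m := by
      have : 1 / κ ≤ q ^ m := hm2.le.trans (pow_le_pow_right₀ hq1.le (by omega))
      rw [div_le_iff₀ hκ0] at this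
      linarith
    have hgrow : ∀ n t : ℕ, n0 ≤ n → e n + t * c n = 0 → κ * q ^ n ≤ t := by
      intro n t hn h2
      obtain ⟨_, h4, h5, _⟩ := hb n hn
      have h7 := habs n t h2
      have hsn : 0 < s ^ n := pow_pos hs n
      have ht : (0 : ℝ) ≤ t := Nat.cast_nonneg t
      have h8 : |A| / 2 * r ^ n ≤ t * ((|C| + 1) * s ^ n) :=
        h5.le.trans (h7.le.trans (mul_le_mul_of_nonneg_left h4.le ht))
      rw [hκ, hq, div_pow, div_mul_div_comm, div_le_iff₀ (by positivity)]
      nlinarith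
    refine ⟨n0 + m, fun X => ?_⟩
    have hsub : {t : ℕ | ∃ n, c n ≠ 0 ∧ e n + t * c n = 0} ∩ Set.Iio (2 ^ X) ⊆
        ((Finset.range ((n0 + m) * (X + 1))).image φ : Finset ℕ) := by
      rintro t ⟨⟨n, h1, h2⟩, h3⟩
      rw [Finset.coe_image]
      refine ⟨n, ?_, (hφt n t h1 h2).symm⟩
      rw [Finset.coe_range, Set.mem_Iio]
      by_contra hcon
      push Not at hcon
      have h4 : n0 ≤ n := by nlinarith
      have h5 := hgrow n t h4 h2
      have h6 : (t : ℝ) < 2 ^ X := by exact_mod_cast h3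
      have h7 : m * (X + 1) ≤ n := by nlinarith
      have h8 : q ^ (m * (X + 1)) ≤ q ^ n := pow_le_pow_right₀ hq1.le h7
      have h9 : q ^ (m * (X + 1)) = q ^ m * (q ^ m) ^ X := by
        rw [mul_add, mul_one, pow_add, pow_mul]; ring
      have h10 : (2 : ℝ) ^ X ≤ (q ^ m) ^ X := pow_le_pow_left₀ (by norm_num) hqm X
      have h11 : (2 : ℝ) ^ X ≤ κ * q ^ n := by
        calc (2 : ℝ) ^ X ≤ (q ^ m) ^ X := h10
          _ = 1 * (q ^ m) ^ X := (one_mul _).symm
          _ ≤ (κ * q ^ m) * (q ^ m) ^ X := mul_le_mul_of_nonneg_right hκm (by positivity)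
          _ = κ * q ^ (m * (X + 1)) := by rw [h9]; ring
          _ ≤ κ * q ^ n := mul_le_mul_of_nonneg_left h8 hκ0.le
      linarith
    refine (Set.ncard_le_ncard hsub (Finset.finite_toSet _)).trans ?_
    rw [Set.ncard_coe_finset]
    exact Finset.card_image_le.trans (by rw [Finset.card_range])

end Pool.Agent.X223.HL
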