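import Pool.Agent.X223.HL.Geo
import Pool.Agent.X223.HL.Thin

/-!
# If all `P a w` live on a finite set then their coordinates are exponential sums
-/

namespace Pool.Agent.X223.HL

open Finsupp

variable {V : Type*} {G : SimpleGraph V} [G.LocallyFinite] {d : ℕ}

/-- Extension of a function on a finite set by zero. -/
noncomputable def ext0 (F : Finset V) (b : F → ℝ) : V →₀ ℝ :=
  ∑ z : F, single z.1 (b z)

omit [G.LocallyFinite] in
theorem ext0_mem (F : Finset V) (b : F → ℝ) (z : F) : ext0 F b z.1 = b z := by
  classical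
  rw [ext0, Finsupp.finsetSum_apply, Finset.sum_eq_single z]
  · simp
  · intro y _ hy
    rw [Finsupp.single_apply, if_neg]
    exact fun h => hy (Subtype.ext h)
  · intro h; exact absurd (Finset.mem_univ _) h

omit [G.LocallyFinite] in
theorem ext0_not_mem (F : Finset V) (b : F → ℝ) (z : V) (hz : z ∉ F) : ext0 F b z = 0 := by
  classical
  rw [ext0, Finsupp.finsetSum_apply]
  apply Finset.sum_eq_zero
  intro y _
  rw [Finsupp.single_apply, if_neg]
  rintro rfl
  exact hz y.2

/-- The compressed Laplacian. -/
noncomputable def MM (G : SimpleGraph V) (d : ℕ) (F : Finset V) : Matrix F F ℝ := by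
  classical
  exact fun z y => (if z = y then (d : ℝ) else 0) - (if G.Adj z.1 y.1 then 1 else 0)

omit [G.LocallyFinite] in
theorem MM_herm (F : Finset V) : (MM G d F).IsHermitian := by
  classical
  ext z y
  simp only [MM, Matrix.conjTranspose_apply, star_trivial]
  congr 1
  · by_cases h : z = y
    · simp [h]
    · simp [h, Ne.symm h]
  · simp [G.adj_comm]

theorem MM_mulVec (F : Finset V) (m : V →₀ ℝ) (hm : ∀ z, z ∉ F → m z = 0) (z : F) :
    (MM G d F).mulVec (fun y => m y.1) z = Lap G d m z.1 := by
  classical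
  rw [Lap_apply, Matrix.mulVec, dotProduct]
  simp only [MM, sub_mul, ite_mul, zero_mul, one_mul]
  rw [Finset.sum_sub_distrib]
  congr 1
  · simp
  · rw [Finset.sum_coe_sort F (fun y => if G.Adj z.1 y then m y else 0), ← Finset.sum_filter]
    apply Finset.sum_subset_zero_on_sdiff
    · intro y hy
      rw [SimpleGraph.mem_neighborFinset]; exact (Finset.mem_filter.mp hy).2
    · intro y hy
      rw [Finset.mem_sdiff, Finset.mem_filter, SimpleGraph.mem_neighborFinset] at hy
      exact hm y (fun h => hy.2 ⟨h, hy.1⟩)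
    · intro y _; rfl

theorem eig_pos (hc : G.Connected) (hd : ∀ x, G.degree x = d) [Infinite V] (F : Finset V)
    (b : F → ℝ) (hb : b ≠ 0) (l : ℝ) (h : (MM G d F).mulVec b = l • b) : 0 < l := by
  classical
  set W := ext0 F b with hW
  have hWF : ∀ z, z ∉ F → W z = 0 := ext0_not_mem F b
  have hbW : (fun y : F => W y.1) = b := by funext y; exact ext0_mem F b y
  have hL : ∀ z : F, Lap G d W z.1 = l * W z.1 := by
    intro z
    rw [← MM_mulVec F W hWF z, hbW, h, Pi.smul_apply, smul_eq_mul, ← ext0_mem F b z]
  have hsupp : W.support ⊆ F := by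
    intro z hz
    by_contra hcon
    exact (Finsupp.mem_support_iff.mp hz) (hWF z hcon)
  have h1 : pr (⇑W) (Lap G d W) = l * pr (⇑W) W := by
    rw [pr_comm, pr_apply_of_subset _ _ _ hsupp, pr_apply_of_subset _ _ _ hsupp, Finset.mul_sum]
    apply Finset.sum_congr rfl
    intro z hz
    rw [hL ⟨z, hz⟩]; ring
  obtain ⟨z1, hz1⟩ : ∃ z, b z ≠ 0 := by
    by_contra hcon
    push Not at hcon
    exact hb (funext hcon)
  have hz1' : W z1.1 ≠ 0 := by rw [hW, ext0_mem]; exact hz1
  have h2 : 0 < pr (⇑W) W := pr_pos_of_ne z1.1 hz1'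
  have h3 := pr_Lap_nonneg G d hd W
  rw [h1] at h3
  have hl0 : 0 ≤ l := by
    by_contra hcon
    push Not at hcon
    nlinarith
  rcases hl0.lt_or_eq with h4 | h4
  · exact h4
  · exfalso
    rw [← h4] at hL
    obtain ⟨z0, hz0, hmax⟩ := Finset.exists_max_image F (fun z => |W z|) ⟨z1.1, z1.2⟩
    have hmax' : ∀ z, |W z| ≤ |W z0| := by
      intro z
      by_cases hz : z ∈ F
      · exact hmax z hz
      · rw [hWF z hz, abs_zero]; exact abs_nonneg _
    have h0 : W z0 ≠ 0 := by
      intro h
      have := hmax' z1.1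
      rw [h, abs_zero] at this
      exact hz1' (abs_nonpos_iff.mp this)
    have hstep : ∀ z y, G.Adj z y → W z = W z0 → W y = W z0 := by
      intro z y hzy hz
      have hzF : z ∈ F := by
        by_contra hcon
        rw [hWF z hcon] at hz
        exact h0 hz.symm
      have h5 := hL ⟨z, hzF⟩
      simp only [zero_mul] at h5
      rw [Lap_apply, hz] at h5
      have h6 : ∑ y ∈ G.neighborFinset z, (W z0 * W z0 - W z0 * W y) = 0 := by
        rw [Finset.sum_sub_distrib, Finset.sum_const, SimpleGraph.card_neighborFinset_eq_degree,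
          hd z, ← Finset.mul_sum, nsmul_eq_mul]
        have : ∑ y ∈ G.neighborFinset z, W y = d * W z0 := by linarith
        rw [this]; ring
      have h7 : ∀ y ∈ G.neighborFinset z, 0 ≤ W z0 * W z0 - W z0 * W y := by
        intro y _
        have h8 : W z0 * W y ≤ |W z0| * |W y| := by
          rw [← abs_mul]; exact le_abs_self _
        have h9 : |W z0| * |W y| ≤ |W z0| * |W z0| :=
          mul_le_mul_of_nonneg_left (hmax' y) (abs_nonneg _)
        rw [abs_mul_abs_self] at h9
        linarith
      have h10 := (Finset.sum_eq_zero_iff_of_nonneg h7).mp h6 y (by simpa using hzy)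
      have h11 : W z0 * (W z0 - W y) = 0 := by linarith
      rcases mul_eq_zero.mp h11 with h12 | h12
      · exact absurd h12 h0
      · linarith
    have hall : ∀ z, W z = W z0 := by
      intro z
      obtain ⟨p⟩ := hc.preconnected z0 z
      have : ∀ {u v : V} (p : G.Walk u v), W u = W z0 → W v = W z0 := by
        intro u v p
        induction p with
        | nil => exact id
        | cons h p ih => exact fun hu => ih (hstep _ _ h hu)
      exact this p rfl
    obtain ⟨z, hz⟩ := Infinite.exists_notMem_finset F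
    exact h0 (by rw [← hall z]; exact hWF z hz)

theorem coord_ES (hc : G.Connected) (hd : ∀ x, G.degree x = d) [Infinite V] (F : Finset V)
    (w : V →₀ ℝ) (hF : ∀ a z, z ∉ F → P G d a w z = 0) (z : V) :
    (fun a => P G d a w z) ∈ ES := by
  classical
  by_cases hz : z ∈ F
  swap
  · have : (fun a => P G d a w z) = 0 := by funext a; exact hF a z hz
    rw [this]; exact ES.zero_mem
  have hM := MM_herm (G := G) (d := d) F
  set B := hM.eigenvectorBasis with hB
  set x : F → ℕ → ℝ := fun j a => inner ℝ (B j) (WithLp.toLp 2 (fun y : F => P G d a w y.1)) with hx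
  have hsum : ∀ a, P G d a w z = ∑ j, x j a * (B j).ofLp ⟨z, hz⟩ := by
    intro a
    have h1 := B.sum_repr' (WithLp.toLp 2 (fun y : F => P G d a w y.1))
    have h2 := congrArg (fun f : EuclideanSpace ℝ F => f.ofLp ⟨z, hz⟩) h1
    simp only [WithLp.ofLp_sum, WithLp.ofLp_smul, Finset.sum_apply, Pi.smul_apply, smul_eq_mul] at h2
    exact h2.symm
  have hrec : ∀ j n, x j (n + 2) = (2 + hM.eigenvalues j) * x j (n + 1) - x j n := by
    intro j n
    have hdot : ∀ a, x j a = ∑ y : F, (B j).ofLp y * P G d a w y.1 := by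
      intro a
      rw [hx]
      simp only [PiLp.inner_apply, RCLike.inner_apply, conj_trivial]
      exact Finset.sum_congr rfl fun y _ => mul_comm _ _
    have hL : ∑ y : F, (B j).ofLp y * Lap G d (P G d (n + 1) w) y.1 =
        hM.eigenvalues j * x j (n + 1) := by
      have h1 : ∀ y : F, Lap G d (P G d (n + 1) w) y.1 =
          (MM G d F).mulVec (fun y => P G d (n + 1) w y.1) y := fun y =>
        (MM_mulVec F _ (hF (n + 1)) y).symm
      have h2 : ∑ y : F, (B j).ofLp y * Lap G d (P G d (n + 1) w) y.1 =
          dotProduct (B j).ofLp ((MM G d F).mulVec (fun y => P G d (n + 1) w y.1)) := by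
        rw [dotProduct]
        exact Finset.sum_congr rfl fun y _ => by rw [h1 y]
      have h3 : Matrix.vecMul (B j).ofLp (MM G d F) = hM.eigenvalues j • (B j).ofLp := by
        have h4 := hM.mulVec_eigenvectorBasis j
        rw [← h4, ← Matrix.mulVec_transpose]
        congr 1
      rw [h2, Matrix.dotProduct_mulVec, h3, hdot, smul_dotProduct, smul_eq_mul, dotProduct]
    rw [hdot (n + 2)]
    have h1 : ∀ y : F, (B j).ofLp y * P G d (n + 2) w y.1 =
        2 * ((B j).ofLp y * P G d (n + 1) w y.1) +
        (B j).ofLp y * Lap G d (P G d (n + 1) w) y.1 - (B j).ofLp y * P G d n w y.1 := by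
      intro y
      rw [P_add_two_apply]
      simp only [Finsupp.sub_apply, Finsupp.add_apply, Finsupp.smul_apply, smul_eq_mul]
      ring
    rw [Finset.sum_congr rfl fun y _ => h1 y, Finset.sum_sub_distrib, Finset.sum_add_distrib,
      ← Finset.mul_sum, hL, ← hdot, ← hdot]
    ring
  have hpos : ∀ j, 0 < hM.eigenvalues j := by
    intro j
    apply eig_pos hc hd F (B j).ofLp _ _ (hM.mulVec_eigenvectorBasis j)
    intro h0
    have h1 : B j = 0 := by
      ext y
      exact congrFun h0 y
    have h2 := B.orthonormal.1 j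
    rw [h1, norm_zero] at h2
    exact absurd h2 (by norm_num)
  have hES : ∀ j, x j ∈ ES := fun j => ES_rec (hpos j) (x j) (hrec j)
  have : (fun a => P G d a w z) = ∑ j, (B j).ofLp ⟨z, hz⟩ • x j := by
    funext a
    rw [hsum a, Finset.sum_apply]
    exact Finset.sum_congr rfl fun j _ => by rw [Pi.smul_apply, smul_eq_mul, mul_comm]
  rw [this]
  exact ES.sum_mem fun j _ => ES.smul_mem _ (hES j)

end Pool.Agent.X223.HL
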