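import Pool.Agent.X223.HL.New
import Pool.Agent.X223.HL.Spec

/-!
# Finite partial assignments and their extensions
-/

namespace Pool.Agent.X223.HL

open Finsupp

variable {V : Type*} (G : SimpleGraph V) [G.LocallyFinite] (d : ℕ)

/-- `m` vanishes outside the finite set `S`. -/
def Off (S : Finset V) (m : V →₀ ℝ) : Prop := ∀ z, z ∉ S → m z = 0

/-- The value of a pair of forms. -/
noncomputable def val (f1 f0 : V → ℤ) (m1 m0 : V →₀ ℝ) : ℝ :=
  pr (fun x => (f1 x : ℝ)) m1 + pr (fun x => (f0 x : ℝ)) m0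

/-- No collision is forced by the assignment on `S1`, `S0`. -/
def Good (S1 S0 : Finset V) (f1 f0 : V → ℤ) : Prop :=
  ∀ p q : Pt V, p ≠ q → Off S1 (F1 G d p - F1 G d q) → Off S0 (F0 G d p - F0 G d q) →
    val f1 f0 (F1 G d p - F1 G d q) (F0 G d p - F0 G d q) ≠ 0

variable {G d}

/-- The reflection of the levels. -/
def flip (p : Pt V) : Pt V := (p.1, p.2.1, !p.2.2)

omit [G.LocallyFinite] in
theorem flip_flip (p : Pt V) : flip (flip p) = p := by
  obtain ⟨x, j, s⟩ := p; simp [flip]

theorem F1_flip (p : Pt V) : F1 G d (flip p) = F0 G d p := by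
  obtain ⟨x, j, s⟩ := p; cases s <;> simp [flip, F1, F0]

theorem F0_flip (p : Pt V) : F0 G d (flip p) = F1 G d p := by
  obtain ⟨x, j, s⟩ := p; cases s <;> simp [flip, F1, F0]

theorem Good.swap {S1 S0 : Finset V} {f1 f0 : V → ℤ} (h : Good G d S1 S0 f1 f0) :
    Good G d S0 S1 f0 f1 := by
  intro p q hpq h1 h0
  have h2 : flip p ≠ flip q := fun h => hpq (by rw [← flip_flip p, h, flip_flip])
  have h3 := h (flip p) (flip q) h2 (by rw [F1_flip, F1_flip]; exact h0)
    (by rw [F0_flip, F0_flip]; exact h1)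
  rw [F1_flip, F1_flip, F0_flip, F0_flip] at h3
  rw [val] at h3 ⊢
  rw [add_comm]; exact h3

theorem ES_shift {g : ℕ → ℝ} (hg : g ∈ ES) : (fun n => g (n + 1)) ∈ ES := by
  induction hg using Submodule.span_induction with
  | mem x hx =>
    obtain ⟨r, rfl⟩ := hx
    have : (fun n : ℕ => r.1 ^ (n + 1)) = r.1 • (fun n : ℕ => r.1 ^ n) := by
      funext n; simp [pow_succ, mul_comm]
    show (fun n : ℕ => r.1 ^ (n + 1)) ∈ ES
    rw [this]; exact ES.smul_mem _ (ES_pow r.2)
  | zero => exact ES.zero_mem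
  | add x y _ _ hx hy => exact ES.add_mem hx hy
  | smul r x _ hx => exact ES.smul_mem r hx

theorem bound_ball (o : V) (S : Finset V) (G : SimpleGraph V) : ∃ R, ∀ z ∈ S, G.dist o z ≤ R :=
  ⟨S.sup (G.dist o), fun _ hz => Finset.le_sup (f := G.dist o) hz⟩

omit [G.LocallyFinite] in
theorem Off.sup {o : V} {R : ℕ} {S : Finset V} {m : V →₀ ℝ} (h : Off S m)
    (hR : ∀ z ∈ S, G.dist o z ≤ R) : Sup G o R m := by
  intro z hz
  apply h
  intro hzS
  have := hR z hzS
  omega

section

variable (hc : G.Connected) (hd : ∀ x, G.degree x = d) (ht : Trans G) [Infinite V]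
include hc hd ht

theorem pr_ES (w : V →₀ ℝ) (F : Finset V) (hF : ∀ a z, z ∉ F → P G d a w z = 0) (g : V → ℝ) :
    (fun a => pr g (P G d a w)) ∈ ES := by
  have : (fun a => pr g (P G d a w)) = ∑ z ∈ F, g z • (fun a => P G d a w z) := by
    funext a
    rw [pr_apply_of_subset g _ F, Finset.sum_apply]
    · exact Finset.sum_congr rfl fun z _ => by rw [Pi.smul_apply, smul_eq_mul, mul_comm]
    · intro z hz
      by_contra hcon
      exact (Finsupp.mem_support_iff.mp hz) (hF a z hcon)
  rw [this]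
  exact ES.sum_mem fun z _ => ES.smul_mem _ (coord_ES hc hd F w hF z)

theorem distinct (p q : Pt V) (hpq : p ≠ q) (h1 : F1 G d p - F1 G d q = 0)
    (h0 : F0 G d p - F0 G d q = 0) : False := by
  have hs : ∀ o, Sup G o 0 (0 : V →₀ ℝ) := fun o z _ => rfl
  by_cases h : p.2 = q.2
  · obtain ⟨x, j, s⟩ := p
    obtain ⟨y, k, t⟩ := q
    simp only [Prod.mk.injEq] at h
    obtain ⟨rfl, rfl⟩ := h
    have hxy : x ≠ y := fun h => hpq (by rw [h])
    have e : P G d (j + 1) (single x 1) + (-1 : ℝ) • P G d (j + 1) (single y 1) = 0 := by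
      rw [neg_one_smul]
      cases s
      · simp only [F0, Bool.false_eq_true, if_false] at h0
        rw [← h0]; abel
      · simp only [F1, if_true] at h1
        rw [← h1]; abel
    obtain ⟨o, ho⟩ := exists_dist hc x 1
    have h3 := lemB hc hd ht o 0 (j + 1) x y hxy (-1) (Or.inr rfl) (by omega)
      (by rw [e]; exact hs o)
    rw [SimpleGraph.dist_comm] at ho
    omega
  · obtain ⟨o, ho⟩ := exists_dist hc p.1 6
    have h3 := bdd_pairs hc hd ht o 0 p q h (by rw [h1]; exact hs o) (by rw [h0]; exact hs o)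
    have h4 := h3.1
    rw [SimpleGraph.dist_comm] at ho
    omega

theorem good_empty (f1 f0 : V → ℤ) : Good G d ∅ ∅ f1 f0 := by
  intro p q hpq h1 h0
  exfalso
  exact distinct hc hd ht p q hpq (Finsupp.ext fun z => h1 z (by simp))
    (Finsupp.ext fun z => h0 z (by simp))

theorem bad_thin [DecidableEq V] (S1 S0 : Finset V) (v : V) (g1 g0 : V → ℝ) :
    Thin {t : ℕ | ∃ p q : Pt V, p ≠ q ∧ Off (insert v S1) (F1 G d p - F1 G d q) ∧
      Off S0 (F0 G d p - F0 G d q) ∧ (F1 G d p - F1 G d q) v ≠ 0 ∧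
      (pr g1 (F1 G d p - F1 G d q) + pr g0 (F0 G d p - F0 G d q)) +
        t * (F1 G d p - F1 G d q) v = 0} := by
  obtain ⟨R, hR⟩ := bound_ball v (insert v (S1 ∪ S0)) G
  have hR1 : ∀ z ∈ insert v S1, G.dist v z ≤ R := fun z hz => hR z (by
    simp only [Finset.mem_insert, Finset.mem_union] at hz ⊢; tauto)
  have hR0 : ∀ z ∈ S0, G.dist v z ≤ R := fun z hz => hR z (by
    simp only [Finset.mem_insert, Finset.mem_union] at hz ⊢; tauto)
  set B := {z | G.dist v z ≤ 5 * R + 5} with hB
  have hBf : B.Finite := ball_finite hc v _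
  -- single solutions
  have single_fin : ∀ e c : ℝ, {t : ℕ | c ≠ 0 ∧ e + t * c = 0}.Finite := by
    intro e c
    apply (Set.finite_singleton ⌊-e / c⌋₊).subset
    rintro t ⟨h1, h2⟩
    have : -e / c = (t : ℝ) := by rw [div_eq_iff h1]; linarith
    rw [Set.mem_singleton_iff, this, Nat.floor_natCast]
  set Q : Set (Pt V × Pt V) := (B ×ˢ (Set.Iic (5 * R + 5) ×ˢ Set.univ)) ×ˢ
    (B ×ˢ (Set.Iic (5 * R + 5) ×ˢ Set.univ)) with hQ
  have hQf : Q.Finite := (hBf.prod ((Set.finite_Iic _).prod Set.finite_univ)).prod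
    (hBf.prod ((Set.finite_Iic _).prod Set.finite_univ))
  have hthin1 : Thin (⋃ pq ∈ Q, {t : ℕ | (F1 G d pq.1 - F1 G d pq.2) v ≠ 0 ∧
      (pr g1 (F1 G d pq.1 - F1 G d pq.2) + pr g0 (F0 G d pq.1 - F0 G d pq.2)) +
        t * (F1 G d pq.1 - F1 G d pq.2) v = 0}) :=
    thin_biUnion hQf _ fun pq _ => thin_finite (single_fin _ _)
  -- families
  set Q' : Set (V × V × Bool) := B ×ˢ (B ×ˢ Set.univ) with hQ'
  have hQ'f : Q'.Finite := hBf.prod (hBf.prod Set.finite_univ)
  set fam : V × V × Bool → Set ℕ := fun u => {t : ℕ | ∃ j : ℕ,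
      Off (insert v (S1 ∪ S0)) (P G d (j + 1) (single u.1 1 - single u.2.1 1)) ∧
      (F1 G d (u.1, j, u.2.2) - F1 G d (u.2.1, j, u.2.2)) v ≠ 0 ∧
      (pr g1 (F1 G d (u.1, j, u.2.2) - F1 G d (u.2.1, j, u.2.2)) +
        pr g0 (F0 G d (u.1, j, u.2.2) - F0 G d (u.2.1, j, u.2.2))) +
        t * (F1 G d (u.1, j, u.2.2) - F1 G d (u.2.1, j, u.2.2)) v = 0} with hfam
  have hthin2 : Thin (⋃ u ∈ Q', fam u) := by
    apply thin_biUnion hQ'f
    rintro ⟨x, y, s⟩ _
    set w : V →₀ ℝ := single x 1 - single y 1 with hw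
    rcases lemC (G := G) (d := d) w (insert v (S1 ∪ S0)) with ⟨N, hN⟩ | ⟨F, hF⟩
    · have h1 : (⋃ j ∈ Set.Iic N, {t : ℕ | (F1 G d (x, j, s) - F1 G d (y, j, s)) v ≠ 0 ∧
          (pr g1 (F1 G d (x, j, s) - F1 G d (y, j, s)) +
          pr g0 (F0 G d (x, j, s) - F0 G d (y, j, s))) +
          t * (F1 G d (x, j, s) - F1 G d (y, j, s)) v = 0}).Finite :=
        (Set.finite_Iic N).biUnion fun j _ => single_fin _ _
      apply (thin_finite h1).subset
      rintro t ⟨j, hj1, hj2⟩
      have := hN (j + 1) hj1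
      simp only [Set.mem_iUnion]
      exact ⟨j, by simp; omega, hj2⟩
    · cases s
      · have e1 : ∀ j, F1 G d (x, j, false) - F1 G d (y, j, false) = - P G d j w := by
          intro j
          simp only [F1, Bool.false_eq_true, if_false, hw, map_sub]; abel
        have e0 : ∀ j, F0 G d (x, j, false) - F0 G d (y, j, false) = P G d (j + 1) w := by
          intro j
          simp only [F0, Bool.false_eq_true, if_false, hw, map_sub]
        have hc1 : (fun j => (- P G d j w) v) ∈ ES := by
          have := ES.neg_mem (coord_ES hc hd F w hF v)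
          exact this
        have he1 : (fun j => pr g1 (- P G d j w) + pr g0 (P G d (j + 1) w)) ∈ ES := by
          have h1 := ES.neg_mem (pr_ES hc hd ht w F hF g1)
          have h2 := ES_shift (pr_ES hc hd ht w F hF g0)
          have h3 := ES.add_mem h1 h2
          convert h3 using 1
          funext j
          simp
        apply (thin_seq he1 hc1).subset
        rintro t ⟨j, _, hj2, hj3⟩
        simp only [e1, e0] at hj2 hj3
        exact ⟨j, hj2, hj3⟩
      · have e1 : ∀ j, F1 G d (x, j, true) - F1 G d (y, j, true) = P G d (j + 1) w := by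
          intro j
          simp only [F1, if_true, hw, map_sub]
        have e0 : ∀ j, F0 G d (x, j, true) - F0 G d (y, j, true) = - P G d j w := by
          intro j
          simp only [F0, if_true, hw, map_sub]; abel
        have hc1 : (fun j => (P G d (j + 1) w) v) ∈ ES := ES_shift (coord_ES hc hd F w hF v)
        have he1 : (fun j => pr g1 (P G d (j + 1) w) + pr g0 (- P G d j w)) ∈ ES := by
          have h1 := ES.neg_mem (pr_ES hc hd ht w F hF g0)
          have h2 := ES_shift (pr_ES hc hd ht w F hF g1)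
          have h3 := ES.add_mem h2 h1
          convert h3 using 1
          funext j
          simp
        apply (thin_seq he1 hc1).subset
        rintro t ⟨j, _, hj2, hj3⟩
        simp only [e1, e0] at hj2 hj3
        exact ⟨j, hj2, hj3⟩
  apply (hthin1.union hthin2).subset
  rintro t ⟨p, q, hpq, h1, h0, hne, ht0⟩
  by_cases h : p.2 = q.2
  · right
    obtain ⟨x, j, s⟩ := p
    obtain ⟨y, k, s'⟩ := q
    simp only [Prod.mk.injEq] at h
    obtain ⟨rfl, rfl⟩ := h
    have hxy : x ≠ y := fun h => hpq (by rw [h])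
    have hoff : Off (insert v (S1 ∪ S0)) (P G d (j + 1) (single x 1 - single y 1)) := by
      intro z hz
      simp only [Finset.mem_insert, Finset.mem_union, not_or] at hz
      cases s
      · have := h0 z hz.2.2
        simp only [F0, Bool.false_eq_true, if_false] at this
        rw [map_sub]; exact this
      · have := h1 z (by simp only [Finset.mem_insert, not_or]; exact ⟨hz.1, hz.2.1⟩)
        simp only [F1, if_true] at this
        rw [map_sub]; exact this
    have hsup := hoff.sup (G := G) (o := v) hR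
    have e2 : P G d (j + 1) (single x 1 - single y 1) =
        P G d (j + 1) (single x 1) + (-1 : ℝ) • P G d (j + 1) (single y 1) := by
      rw [neg_one_smul, map_sub]; abel
    have hb := lemB hc hd ht v R (j + 1) x y hxy (-1) (Or.inr rfl) (by omega) (by rw [← e2]; exact hsup)
    simp only [Set.mem_iUnion]
    refine ⟨(x, y, s), ⟨?_, ?_, Set.mem_univ _⟩, j, hoff, hne, ht0⟩
    · show G.dist v x ≤ 5 * R + 5; omega
    · show G.dist v y ≤ 5 * R + 5; omega
  · left
    have hb := bdd_pairs hc hd ht v R p q h (h1.sup hR1) (h0.sup hR0)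
    simp only [Set.mem_iUnion]
    refine ⟨(p, q), ⟨⟨hb.1, hb.2.2.1, Set.mem_univ _⟩, ⟨hb.2.1, hb.2.2.2, Set.mem_univ _⟩⟩, hne, ht0⟩

omit hc hd ht [Infinite V] in
theorem pr_update (f : V → ℤ) (v : V) (t : ℤ) [DecidableEq V] (m : V →₀ ℝ) :
    pr (fun x => ((Function.update f v t x : ℤ) : ℝ)) m =
      pr (fun x => ((Function.update f v 0 x : ℤ) : ℝ)) m + t * m v := by
  classical
  induction m using Finsupp.induction_linear with
  | zero => simp
  | add a b ha hb => rw [map_add, map_add, ha, hb, Finsupp.add_apply]; ring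
  | single x a =>
    rw [pr_single, pr_single]
    by_cases h : x = v
    · subst h; simp; ring
    · simp [Function.update_of_ne h, Finsupp.single_apply, h]

/-- A new variable in layer 1. -/
theorem step1 [DecidableEq V] (S1 S0 : Finset V) (f1 f0 : V → ℤ) (h : Good G d S1 S0 f1 f0) (v : V)
    (hv : v ∉ S1) :
    ∃ t : ℤ, Good G d (insert v S1) S0 (Function.update f1 v t) f0 := by
  obtain ⟨t, ht0⟩ := (bad_thin hc hd ht S1 S0 v
    (fun x => ((Function.update f1 v 0 x : ℤ) : ℝ)) (fun x => (f0 x : ℝ))).exists_not_mem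
  refine ⟨(t : ℤ), fun p q hpq h1 h0 hval => ?_⟩
  by_cases hne : (F1 G d p - F1 G d q) v = 0
  · apply h p q hpq _ h0
    · rw [val] at hval ⊢
      rw [← hval]
      congr 1
      apply pr_congr
      intro x hx
      have : x ≠ v := by rintro rfl; exact (Finsupp.mem_support_iff.mp hx) hne
      rw [Function.update_of_ne this]
    · intro z hz
      by_cases hzv : z = v
      · rw [hzv]; exact hne
      · exact h1 z (by simp [hzv, hz])
  · apply ht0
    refine ⟨p, q, hpq, ?_, h0, hne, ?_⟩
    · exact h1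
    · rw [val, pr_update] at hval
      rw [← hval]
      push_cast
      ring

theorem step0 [DecidableEq V] (S1 S0 : Finset V) (f1 f0 : V → ℤ) (h : Good G d S1 S0 f1 f0) (v : V)
    (hv : v ∉ S0) :
    ∃ t : ℤ, Good G d S1 (insert v S0) f1 (Function.update f0 v t) := by
  obtain ⟨t, ht0⟩ := step1 hc hd ht S0 S1 f0 f1 h.swap v hv
  exact ⟨t, ht0.swap⟩

/-- Reaching the value `N`. -/
theorem stepN [DecidableEq V] (S1 S0 : Finset V) (f1 f0 : V → ℤ) (h : Good G d S1 S0 f1 f0) (N : ℤ)
    (hN : ∀ p : Pt V, Off S1 (F1 G d p) → Off S0 (F0 G d p) →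
      val f1 f0 (F1 G d p) (F0 G d p) ≠ N) :
    ∃ v, v ∉ S0 ∧ Good G d S1 (insert v S0) f1 (Function.update f0 v N) := by
  obtain ⟨o⟩ := hc.nonempty
  obtain ⟨R, hR⟩ := bound_ball o (S1 ∪ S0) G
  have hR1 : ∀ z ∈ S1, G.dist o z ≤ R := fun z hz => hR z (Finset.mem_union_left _ hz)
  have hR0 : ∀ z ∈ S0, G.dist o z ≤ R := fun z hz => hR z (Finset.mem_union_right _ hz)
  obtain ⟨R', hRR, hnew⟩ := newv hc hd ht o R
  obtain ⟨v, hv⟩ := exists_dist hc o (R' + 1)
  have hvS : v ∉ S0 := fun hmem => by have := hR0 v hmem; omega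
  refine ⟨v, hvS, fun p q hpq h1 h0 hval => ?_⟩
  have hupd : ∀ m : V →₀ ℝ, m v = 0 → pr (fun x => ((Function.update f0 v N x : ℤ) : ℝ)) m =
      pr (fun x => (f0 x : ℝ)) m := by
    intro m hm
    apply pr_congr
    intro x hx
    have : x ≠ v := by rintro rfl; exact (Finsupp.mem_support_iff.mp hx) hm
    rw [Function.update_of_ne this]
  by_cases hne : (F0 G d p - F0 G d q) v = 0
  · apply h p q hpq h1
    · intro z hz
      by_cases hzv : z = v
      · rw [hzv]; exact hne
      · exact h0 z (by simp [hzv, hz])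
    · rw [val, hupd _ hne] at hval
      exact hval
  · have hF1v : F1 G d ((v, 0, false) : Pt V) = 0 := by simp [F1, P_zero]
    have hF0v : F0 G d ((v, 0, false) : Pt V) = single v 1 := by simp [F0, P_one]
    have hcase : ∀ p : Pt V, Off S1 (F1 G d p) → (∀ z, z ∉ insert v S0 → F0 G d p z = single v (1:ℝ) z) →
        F0 G d p v = 0 → val f1 (Function.update f0 v N) (F1 G d p) (F0 G d p) ≠ N := by
      intro p h2 h3 h4
      rw [val, hupd _ h4]
      apply hN p h2
      intro z hz
      by_cases hzv : z = v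
      · rw [hzv]; exact h4
      · rw [h3 z (by simp [hzv, hz]), Finsupp.single_apply, if_neg (Ne.symm hzv)]
    have hvv : pr (fun x => ((Function.update f0 v N x : ℤ) : ℝ)) (single v (1 : ℝ)) = N := by
      rw [pr_single]; simp
    rcases hnew v (by omega) p q hpq (h1.sup hR1) (by
      intro z hz hzv
      apply h0
      simp only [Finset.mem_insert, not_or]
      exact ⟨hzv, fun hmem => by have := hR0 z hmem; omega⟩) hne with ⟨rfl, hp⟩ | ⟨rfl, hq⟩
    · rw [hF1v, sub_zero] at h1
      rw [hF0v] at h0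
      rw [hF1v, hF0v, sub_zero] at hval
      apply hcase p h1 _ hp
      · rw [val, map_sub, hvv] at hval
        rw [val]; linarith
      · intro z hz
        have := h0 z hz
        rw [Finsupp.sub_apply] at this
        linarith
    · rw [hF1v, zero_sub] at h1
      rw [hF0v] at h0
      rw [hF1v, hF0v, zero_sub] at hval
      apply hcase q _ _ hq
      · rw [val, map_sub, hvv, map_neg] at hval
        rw [val]; linarith
      · intro z hz
        have := h1 z hz
        rw [Finsupp.neg_apply] at this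
        linarith
      · intro z hz
        have := h0 z hz
        rw [Finsupp.sub_apply] at this
        linarith

end

end Pool.Agent.X223.HL
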